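import Pool.Agent.Helper32.HP.Base
import Pool.Agent.Helper82.HP.Past

/-!
# HP-B5 (helper82): no atoms, or a function of the past

`μ_1 = law(X | GG 1)` is the image of `kap (past (T ω))` under `x ↦ ξ ω + x / b`.
`E ∑_x (μ_1{x} - μ_0{x})^2 = 0`: `E ∫ μ_1{x} dμ_1 = E ∫ μ_0{x} dμ_0` by stationarity, and
`E ∫ μ_0{x} dμ_1 = E μ_0{X} = E ∫ μ_0{x} dμ_0`.  So `w ω = kap (past ω) {X ω}` is invariant, `w = c` a.e.  If
`c = 0` there are no atoms.  If `c > 0` then `X` is the only atom of `kap (past ω)`, since the atoms of `μ_k` are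
those of `μ_0` and lie within `O(b^(-k))` of `X`; so `X` is a function of the past.
-/

set_option autoImplicit false

namespace Pool.Agent.Helper32.HP

open Finset MeasureTheory ProbabilityTheory Filter Topology

variable {Ω : Type*} [MeasurableSpace Ω] {μ : Measure Ω} {b C : ℝ} {T : Ω ≃ᵐ Ω} {ξ : Ω → ℝ}

theorem noAtoms (hS : Sys μ b C T ξ) [IsProbabilityMeasure μ] (hE : Ergodic T μ)
    (hX : ∀ f : (ℕ → ℝ) → ℝ, Measurable f → ¬ (XX b T ξ =ᵐ[μ] fun ω => f (past T ξ ω))) :
    ∀ᵐ ω ∂μ, ∀ x : ℝ, kap μ b T ξ (past T ξ ω) {x} = 0 := by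
  have hXm := measurable_XX hS
  have hk : (μ.map (past T ξ)) ⊗ₘ kap μ b T ξ = μ.map (fun ω => (past T ξ ω, XX b T ξ ω)) :=
    compProd_map_condDistrib (mβ := MeasurableSpace.pi) hXm.aemeasurable
  have h := Pool.Agent.Helper82.HP.nonatomic_or_past (T := T) (ξ := ξ) hE (measurable_past hS) hXm (XX_abs hS) hS.hb
    (fun ω => by
      unfold past
      simp) (fun ω j => by
      unfold past
      rw [Function.iterate_succ_apply]
      simp) (fun ω => by
      rw [XX_split hS 1 ω]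
      unfold Xs
      simp) hk
  rcases h with h | ⟨f, hf, hfX⟩
  · exact h
  · exact absurd hfX (hX f hf)

end Pool.Agent.Helper32.HP
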