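import Pool.Agent.Helper32.HP.Defs
import Pool.Agent.Helper59.WD.UdExp

/-!
# HP-B0 (helper32): elementary facts and the base lemma
-/

set_option autoImplicit false

namespace Pool.Agent.Helper32.HP

open Finset MeasureTheory ProbabilityTheory Filter Topology
open Pool.Agent.Helper59.RE (e norm_e e_add e_sub conj_e continuous_e e_zero)

variable {Ω : Type*} [MeasurableSpace Ω] {μ : Measure Ω} {b C : ℝ} {T : Ω ≃ᵐ Ω} {ξ : Ω → ℝ}

theorem BB_nonneg (hS : Sys μ b C T ξ) [IsProbabilityMeasure μ] : 0 ≤ BB b C := by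
  obtain ⟨ω⟩ : Nonempty Ω := nonempty_of_isProbabilityMeasure μ
  have h1 : 0 ≤ C := (abs_nonneg _).trans (hS.hC ω)
  have h2 := hS.hb
  unfold BB
  exact div_nonneg (mul_nonneg h1 (by linarith)) (by linarith)

theorem cl_lip (B x y : ℝ) : |cl B x - cl B y| ≤ |x - y| := by
  unfold cl
  refine (abs_max_sub_max_le_max _ _ _ _).trans (max_le (by simp) ?_)
  exact (abs_min_sub_min_le_max _ _ _ _).trans (max_le (by simp) le_rfl)

theorem cl_abs {B : ℝ} (hB : 0 ≤ B) (x : ℝ) : |cl B x| ≤ B := by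
  unfold cl
  rw [abs_le]
  exact ⟨le_max_left _ _, max_le (by linarith) (min_le_left _ _)⟩

theorem cl_eq {B x : ℝ} (h : |x| ≤ B) : cl B x = x := by
  rw [abs_le] at h
  unfold cl
  rw [min_eq_right h.2, max_eq_right h.1]

theorem continuous_cl (B : ℝ) : Continuous (cl B) := by
  unfold cl
  fun_prop

theorem measurable_past (hS : Sys μ b C T ξ) : Measurable (past T ξ) := by
  rw [measurable_pi_iff]
  intro j
  exact hS.hξ.comp (T.symm.measurable.iterate (j + 1))

theorem term_abs (hS : Sys μ b C T ξ) (k : ℕ) (ω : Ω) : ‖ξ (T^[k] ω) / b ^ k‖ ≤ C * (b⁻¹) ^ k := by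
  have hb0 : 0 < b := zero_lt_one.trans hS.hb
  rw [Real.norm_eq_abs, abs_div, abs_of_pos (pow_pos hb0 k), inv_pow, ← div_eq_mul_inv]
  exact div_le_div_of_nonneg_right (hS.hC _) (pow_pos hb0 k).le

theorem inv_lt (hS : Sys μ b C T ξ) : b⁻¹ < 1 := inv_lt_one_of_one_lt₀ hS.hb

theorem hasSum_bound (hS : Sys μ b C T ξ) : HasSum (fun k : ℕ => C * (b⁻¹) ^ k) (BB b C) := by
  have hb1 := hS.hb
  have hb0 : 0 < b := zero_lt_one.trans hb1
  have h1 := (hasSum_geometric_of_lt_one (inv_nonneg.2 hb0.le) (inv_lt hS)).mul_left C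
  have h2 : C * (1 - b⁻¹)⁻¹ = BB b C := by
    unfold BB
    have : b - 1 ≠ 0 := by
      have : 0 < b - 1 := by linarith
      exact this.ne'
    have h3 : 1 - b⁻¹ = (b - 1) / b := by
      field_simp
    rw [h3, inv_div]
    ring
  rwa [h2] at h1

theorem summable_term (hS : Sys μ b C T ξ) (ω : Ω) : Summable fun k : ℕ => ξ (T^[k] ω) / b ^ k :=
  Summable.of_norm_bounded (hasSum_bound hS).summable fun k => term_abs hS k ω

theorem measurable_Xs (hS : Sys μ b C T ξ) (k : ℕ) : Measurable (Xs b T ξ k) := by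
  unfold Xs
  exact Finset.measurable_fun_sum _ fun j _ => (hS.hξ.comp (T.measurable.iterate j)).div_const _

theorem measurable_XX (hS : Sys μ b C T ξ) : Measurable (XX b T ξ) := by
  refine measurable_of_tendsto_metrizable (f := fun k => Xs b T ξ k) (fun k => measurable_Xs hS k) ?_
  rw [tendsto_pi_nhds]
  intro ω
  exact (summable_term hS ω).hasSum.tendsto_sum_nat

theorem XX_abs (hS : Sys μ b C T ξ) (ω : Ω) : |XX b T ξ ω| ≤ BB b C := by
  rw [← Real.norm_eq_abs]
  exact tsum_of_norm_bounded (hasSum_bound hS) fun k => term_abs hS k ω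

/-- `X = X_(<k) + b^(-k) X ∘ T^k` -/
theorem XX_split (hS : Sys μ b C T ξ) (k : ℕ) (ω : Ω) :
    XX b T ξ ω = Xs b T ξ k ω + XX b T ξ (T^[k] ω) / b ^ k := by
  have h1 := (summable_term hS ω).sum_add_tsum_nat_add k
  unfold XX Xs
  rw [← h1, ← tsum_div_const]
  congr 1
  refine tsum_congr fun i => ?_
  rw [Function.iterate_add_apply, pow_add, div_div]

theorem Xs_close (hS : Sys μ b C T ξ) (k : ℕ) (ω : Ω) : |XX b T ξ ω - Xs b T ξ k ω| ≤ BB b C / b ^ k := by
  have hb0 : 0 < b := zero_lt_one.trans hS.hb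
  rw [XX_split hS k ω, add_sub_cancel_left, abs_div, abs_of_pos (pow_pos hb0 k)]
  exact div_le_div_of_nonneg_right (XX_abs hS _) (pow_pos hb0 k).le

theorem GG_le (hS : Sys μ b C T ξ) (k : ℕ) : GG T ξ k ≤ (inferInstance : MeasurableSpace Ω) :=
  ((measurable_past hS).comp (T.measurable.iterate k)).comap_le

theorem symm_iter (T : Ω ≃ᵐ Ω) (j : ℕ) (ω : Ω) : T.symm^[j] (T^[j] ω) = ω :=
  Function.LeftInverse.iterate T.symm_apply_apply j ω

theorem past_shift (T : Ω ≃ᵐ Ω) (ξ : Ω → ℝ) {j k : ℕ} (h : j ≤ k) (ω : Ω) (i : ℕ) :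
    past T ξ (T^[j] ω) i = past T ξ (T^[k] ω) (i + (k - j)) := by
  obtain ⟨l, rfl⟩ := Nat.exists_eq_add_of_le h
  unfold past
  congr 1
  have h1 : i + (j + l - j) + 1 = (i + 1) + l := by omega
  rw [h1, Function.iterate_add_apply T.symm (i + 1) l, add_comm j l, Function.iterate_add_apply (⇑T) l j, symm_iter]

theorem past_meas (T : Ω ≃ᵐ Ω) (ξ : Ω → ℝ) {j k : ℕ} (h : j ≤ k) :
    Measurable[GG T ξ k] (fun ω => past T ξ (T^[j] ω)) := by
  have h1 : Measurable[GG T ξ k] (fun ω => past T ξ (T^[k] ω)) := comap_measurable _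
  have h2 : (fun ω => past T ξ (T^[j] ω)) = (fun (p : ℕ → ℝ) (i : ℕ) => p (i + (k - j))) ∘ (fun ω => past T ξ (T^[k] ω)) := by
    funext ω i
    exact past_shift T ξ h ω i
  rw [h2]
  exact (measurable_pi_iff.2 fun i => measurable_pi_apply _).comp h1

theorem GG_mono (T : Ω ≃ᵐ Ω) (ξ : Ω → ℝ) {j k : ℕ} (h : j ≤ k) : GG T ξ j ≤ GG T ξ k :=
  (past_meas T ξ h).comap_le

theorem xi_eq (T : Ω ≃ᵐ Ω) (ξ : Ω → ℝ) {i k : ℕ} (h : i < k) (ω : Ω) : ξ (T^[i] ω) = past T ξ (T^[k] ω) (k - 1 - i) := by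
  obtain ⟨l, rfl⟩ := Nat.exists_eq_add_of_le h
  unfold past
  congr 1
  have h1 : i.succ + l - 1 - i + 1 = l + 1 := by omega
  have h2 : i.succ + l = (l + 1) + i := by omega
  rw [h1, h2, Function.iterate_add_apply (⇑T) (l + 1) i, symm_iter]

theorem Xs_meas (b : ℝ) (T : Ω ≃ᵐ Ω) (ξ : Ω → ℝ) {j k : ℕ} (h : j ≤ k) : Measurable[GG T ξ k] (Xs b T ξ j) := by
  have h1 : Measurable[GG T ξ k] (fun ω => past T ξ (T^[k] ω)) := comap_measurable _
  have h2 : Xs b T ξ j = (fun p : ℕ → ℝ => ∑ i ∈ range j, p (k - 1 - i) / b ^ i) ∘ (fun ω => past T ξ (T^[k] ω)) := by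
    funext ω
    unfold Xs
    refine Finset.sum_congr rfl fun i hi => ?_
    rw [xi_eq T ξ (lt_of_lt_of_le (Finset.mem_range.1 hi) h)]
  rw [h2]
  refine Measurable.comp ?_ h1
  exact Finset.measurable_fun_sum _ fun i _ => (measurable_pi_apply _).div_const _

instance kap_markov [IsProbabilityMeasure μ] : IsMarkovKernel (kap μ b T ξ) := by
  unfold kap
  infer_instance

theorem psi_norm [IsProbabilityMeasure μ] (p : ℕ → ℝ) (t : ℝ) : ‖psi μ b C T ξ p t‖ ≤ 1 := by
  unfold psi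
  refine (norm_integral_le_of_norm_le_const (C := 1) (Eventually.of_forall fun x => (norm_e _).le)).trans ?_
  simp

theorem psi_integrable [IsProbabilityMeasure μ] (p : ℕ → ℝ) (t : ℝ) :
    Integrable (fun x => e (t * cl (BB b C) x)) (kap μ b T ξ p) := by
  refine (integrable_const (1 : ℝ)).mono' ?_ (Eventually.of_forall fun x => (norm_e _).le)
  exact (continuous_e.comp (continuous_const.mul (continuous_cl _))).aestronglyMeasurable

theorem psi_lip (hS : Sys μ b C T ξ) [IsProbabilityMeasure μ] (p : ℕ → ℝ) (t t' : ℝ) :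
    ‖psi μ b C T ξ p t - psi μ b C T ξ p t'‖ ≤ 2 * Real.pi * BB b C * |t - t'| := by
  unfold psi
  rw [← integral_sub (psi_integrable p t) (psi_integrable p t')]
  refine (norm_integral_le_of_norm_le_const (C := 2 * Real.pi * BB b C * |t - t'|) (Eventually.of_forall fun x => ?_)).trans ?_
  · refine (Pool.Agent.Helper59.WD.e_lip _ _).trans ?_
    have h1 : t * cl (BB b C) x - t' * cl (BB b C) x = (t - t') * cl (BB b C) x := by ring
    rw [h1, abs_mul]
    have h2 := cl_abs (BB_nonneg hS) x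
    have hpi := Real.pi_pos
    calc 2 * Real.pi * (|t - t'| * |cl (BB b C) x|) ≤ 2 * Real.pi * (|t - t'| * BB b C) := by gcongr
      _ = _ := by ring
  · simp

theorem psi_neg [IsProbabilityMeasure μ] (p : ℕ → ℝ) (t : ℝ) : ‖psi μ b C T ξ p (-t)‖ = ‖psi μ b C T ξ p t‖ := by
  have h1 : psi μ b C T ξ p (-t) = (starRingEnd ℂ) (psi μ b C T ξ p t) := by
    unfold psi
    rw [← integral_conj]
    congr 1
    funext x
    rw [conj_e, neg_mul]
  rw [h1, Complex.norm_conj]

theorem psi_meas [IsProbabilityMeasure μ] : Measurable (Function.uncurry (psi μ b C T ξ)) := by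
  have h1 : StronglyMeasurable (fun z : ((ℕ → ℝ) × ℝ) × ℝ => e (z.1.2 * cl (BB b C) z.2)) := by
    apply Measurable.stronglyMeasurable
    exact continuous_e.measurable.comp (measurable_fst.snd.mul ((continuous_cl _).measurable.comp measurable_snd))
  have h2 := h1.integral_kernel_prod_right' (κ := (kap μ b T ξ).comap Prod.fst measurable_fst)
  exact h2.measurable

/-- the law of (past, X) at time `k` -/
theorem base (hS : Sys μ b C T ξ) [IsProbabilityMeasure μ] (k : ℕ) (g : (ℕ → ℝ) → ℝ → ℂ)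
    (hg : Measurable (Function.uncurry g)) (M : ℝ) (hM : ∀ p x, ‖g p x‖ ≤ M) :
    ∫ ω, g (past T ξ (T^[k] ω)) (XX b T ξ (T^[k] ω)) ∂μ =
      ∫ ω, (∫ x, g (past T ξ (T^[k] ω)) x ∂(kap μ b T ξ (past T ξ (T^[k] ω)))) ∂μ := by
  have hPm := measurable_past hS
  have hXm := measurable_XX hS
  have hk : MeasurePreserving (T^[k]) μ μ := hS.hT.iterate k
  -- both sides at time 0
  have hinner : StronglyMeasurable fun p : ℕ → ℝ => ∫ x, g p x ∂(kap μ b T ξ p) := by
    have h1 : StronglyMeasurable (Function.uncurry g) := hg.stronglyMeasurable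
    exact h1.integral_kernel_prod_right (κ := kap μ b T ξ)
  have hL : ∫ ω, g (past T ξ (T^[k] ω)) (XX b T ξ (T^[k] ω)) ∂μ = ∫ ω, g (past T ξ ω) (XX b T ξ ω) ∂μ := by
    have h1 : AEStronglyMeasurable (fun ω => g (past T ξ ω) (XX b T ξ ω)) (μ.map (T^[k])) :=
      (hg.comp (hPm.prodMk hXm)).aestronglyMeasurable
    have h2 := integral_map hk.measurable.aemeasurable h1
    rw [hk.map_eq] at h2
    exact h2.symm
  have hR : ∫ ω, (∫ x, g (past T ξ (T^[k] ω)) x ∂(kap μ b T ξ (past T ξ (T^[k] ω)))) ∂μ =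
      ∫ ω, (∫ x, g (past T ξ ω) x ∂(kap μ b T ξ (past T ξ ω))) ∂μ := by
    have h1 : AEStronglyMeasurable (fun ω => ∫ x, g (past T ξ ω) x ∂(kap μ b T ξ (past T ξ ω))) (μ.map (T^[k])) :=
      (hinner.comp_measurable hPm).aestronglyMeasurable
    have h2 := integral_map hk.measurable.aemeasurable h1
    rw [hk.map_eq] at h2
    exact h2.symm
  rw [hL, hR]
  have h1 := compProd_map_condDistrib (mβ := MeasurableSpace.pi) (X := past T ξ) (Y := XX b T ξ) (μ := μ)
    hXm.aemeasurable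
  have h2 : ∫ z, Function.uncurry g z ∂(μ.map fun ω => (past T ξ ω, XX b T ξ ω)) = ∫ ω, g (past T ξ ω) (XX b T ξ ω) ∂μ :=
    integral_map (hPm.prodMk hXm).aemeasurable hg.aestronglyMeasurable
  have h3 : Integrable (Function.uncurry g) ((μ.map (past T ξ)) ⊗ₘ (kap μ b T ξ)) := by
    have hp : IsProbabilityMeasure (μ.map (past T ξ)) := Measure.isProbabilityMeasure_map hPm.aemeasurable
    exact (integrable_const M).mono' hg.aestronglyMeasurable (Eventually.of_forall fun z => hM _ _)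
  have hp : IsProbabilityMeasure (μ.map (past T ξ)) := Measure.isProbabilityMeasure_map hPm.aemeasurable
  rw [← h2, ← h1]
  change ∫ z, Function.uncurry g z ∂((μ.map (past T ξ)) ⊗ₘ (kap μ b T ξ)) = _
  rw [Measure.integral_compProd h3]
  exact integral_map hPm.aemeasurable hinner.aestronglyMeasurable

/-- the law of `X ∘ T^k` given `GG k` -/
theorem base_G (hS : Sys μ b C T ξ) [IsProbabilityMeasure μ] (k : ℕ) (W : Ω → ℂ) (hW : Measurable[GG T ξ k] W)
    (M : ℝ) (hM : ∀ ω, ‖W ω‖ ≤ M) (τ : Ω → ℝ) (hτ : Measurable[GG T ξ k] τ) :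
    ∫ ω, W ω * e (τ ω * XX b T ξ (T^[k] ω)) ∂μ =
      ∫ ω, W ω * psi μ b C T ξ (past T ξ (T^[k] ω)) (τ ω) ∂μ := by
  obtain ⟨W₀, hW₀, hW₁⟩ := hW.exists_eq_measurable_comp
  obtain ⟨τ₀, hτ₀, hτ₁⟩ := hτ.exists_eq_measurable_comp
  classical
  -- truncate `W₀`
  set W₂ : (ℕ → ℝ) → ℂ := fun p => if ‖W₀ p‖ ≤ M then W₀ p else 0 with hW₂
  have hW₂m : Measurable W₂ := Measurable.ite (measurableSet_le hW₀.norm measurable_const) hW₀ measurable_const
  have hM0 : 0 ≤ M := by
    obtain ⟨ω⟩ : Nonempty Ω := nonempty_of_isProbabilityMeasure μ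
    exact (norm_nonneg _).trans (hM ω)
  have hW₂b : ∀ p, ‖W₂ p‖ ≤ M := by
    intro p
    rw [hW₂]
    simp only
    split_ifs with h
    · exact h
    · rw [norm_zero]
      exact hM0
  have hWe : ∀ ω, W ω = W₂ (past T ξ (T^[k] ω)) := by
    intro ω
    have h1 : W ω = W₀ (past T ξ (T^[k] ω)) := congrFun hW₁ ω
    have h2 := hM ω
    rw [h1] at h2
    rw [h1, hW₂]
    simp only
    rw [if_pos h2]
  have hτe : ∀ ω, τ ω = τ₀ (past T ξ (T^[k] ω)) := fun ω => congrFun hτ₁ ω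
  have h1 := base hS k (fun p x => W₂ p * e (τ₀ p * cl (BB b C) x)) (by
    apply Measurable.mul
    · exact hW₂m.comp measurable_fst
    · exact continuous_e.measurable.comp ((hτ₀.comp measurable_fst).mul ((continuous_cl _).measurable.comp measurable_snd))) M (by
    intro p x
    rw [norm_mul, norm_e, mul_one]
    exact hW₂b p)
  have h2 : ∀ ω, W ω * e (τ ω * XX b T ξ (T^[k] ω)) = W₂ (past T ξ (T^[k] ω)) *
      e (τ₀ (past T ξ (T^[k] ω)) * cl (BB b C) (XX b T ξ (T^[k] ω))) := by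
    intro ω
    rw [hWe, hτe, cl_eq (XX_abs hS _)]
  simp only [h2]
  rw [h1]
  refine integral_congr_ae (Eventually.of_forall fun ω => ?_)
  simp only
  rw [integral_const_mul, hWe, hτe]
  rfl

theorem wt_nonneg (x : ℝ) : 0 ≤ wt x := le_max_left _ _

theorem wt_le (x : ℝ) : wt x ≤ 1 := max_le zero_le_one (min_le_left _ _)

theorem wt_lip (x y : ℝ) : |wt x - wt y| ≤ |x - y| := by
  unfold wt
  refine (abs_max_sub_max_le_max _ _ _ _).trans (max_le (by simp) ?_)
  refine (abs_min_sub_min_le_max _ _ _ _).trans (max_le (by simp) ?_)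
  refine (abs_min_sub_min_le_max _ _ _ _).trans (max_le ?_ ?_)
  · rw [add_sub_add_right_eq_sub]
  · rw [sub_sub_sub_cancel_left, abs_sub_comm]

theorem wt_zero {x : ℝ} (h : x ≤ -1 ∨ 2 ≤ x) : wt x = 0 := by
  unfold wt
  apply max_eq_left
  rcases h with h | h
  · exact (min_le_right _ _).trans ((min_le_left _ _).trans (by linarith))
  · exact (min_le_right _ _).trans ((min_le_right _ _).trans (by linarith))

theorem wt_one {x : ℝ} (h0 : 0 ≤ x) (h1 : x ≤ 1) : wt x = 1 := by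
  unfold wt
  have h2 : (1 : ℝ) ≤ min (x + 1) (2 - x) := le_min (by linarith) (by linarith)
  rw [min_eq_left h2, max_eq_right zero_le_one]

theorem rpow_lip (hb : 1 < b) {y y' A : ℝ} (hy : y ≤ A) (hy' : y' ≤ A) : |b ^ y - b ^ y'| ≤ b ^ A * Real.log b * |y - y'| := by
  have hb0 : 0 < b := zero_lt_one.trans hb
  have hlb : 0 < Real.log b := Real.log_pos hb
  have h1 := Convex.norm_image_sub_le_of_norm_hasDerivWithin_le (𝕜 := ℝ) (f := fun t : ℝ => b ^ t)
    (f' := fun t => b ^ t * Real.log b) (s := Set.Iic A) (x := y') (y := y) (C := b ^ A * Real.log b)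
    (fun t _ => (Real.hasStrictDerivAt_const_rpow hb0 t).hasDerivAt.hasDerivWithinAt) (fun t ht => by
      rw [Real.norm_eq_abs, abs_of_nonneg (by positivity)]
      have : b ^ t ≤ b ^ A := Real.rpow_le_rpow_of_exponent_le hb.le ht
      gcongr) (convex_Iic A) hy' hy
  simpa [Real.norm_eq_abs] using h1

/-- `qq` satisfies the conditions of the ergodic blocks -/
theorem qq_isQ (hS : Sys μ b C T ξ) [IsProbabilityMeasure μ] (m : ℕ) :
    IsQ (qq μ b C T ξ m) (1 + 4 * Real.pi * BB b C * b ^ (m + 3) * Real.log b) (m + 3) := by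
  have hb0 : 0 < b := zero_lt_one.trans hS.hb
  have hlb : 0 < Real.log b := Real.log_pos hS.hb
  have hBB := BB_nonneg hS
  have hpi := Real.pi_pos
  have hsq : ∀ (p : ℕ → ℝ) (t : ℝ), ‖psi μ b C T ξ p t‖ ^ 2 ≤ 1 := fun p t => pow_le_one₀ (norm_nonneg _) (psi_norm p t)
  have hzero : ∀ (ω : Ω) (y : ℝ), y ≤ m ∨ (m : ℝ) + 3 ≤ y → qq μ b C T ξ m ω y = 0 := by
    intro ω y h
    unfold qq
    rw [wt_zero, zero_mul]
    rcases h with h | h
    · left; linarith
    · right; linarith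
  have hin : ∀ (ω : Ω) (y y' : ℝ), y ≤ (m : ℝ) + 3 → y' ≤ (m : ℝ) + 3 →
      |qq μ b C T ξ m ω y - qq μ b C T ξ m ω y'| ≤ (1 + 4 * Real.pi * BB b C * b ^ (m + 3) * Real.log b) * |y - y'| := by
    intro ω y y' hy hy'
    unfold qq
    set P := psi μ b C T ξ (past T ξ ω) with hP
    have h1 : wt (y - (m + 1)) * ‖P (b ^ y)‖ ^ 2 - wt (y' - (m + 1)) * ‖P (b ^ y')‖ ^ 2 =
        (wt (y - (m + 1)) - wt (y' - (m + 1))) * ‖P (b ^ y)‖ ^ 2 +
          wt (y' - (m + 1)) * (‖P (b ^ y)‖ ^ 2 - ‖P (b ^ y')‖ ^ 2) := by ring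
    rw [h1]
    refine (abs_add_le _ _).trans ?_
    rw [abs_mul, abs_mul]
    have h2 : |wt (y - (m + 1)) - wt (y' - (m + 1))| ≤ |y - y'| := by
      refine (wt_lip _ _).trans (le_of_eq ?_)
      congr 1
      ring
    have h3 : |‖P (b ^ y)‖ ^ 2| ≤ 1 := by
      rw [abs_of_nonneg (by positivity)]
      exact hsq _ _
    have h4 : |wt (y' - (m + 1))| ≤ 1 := by
      rw [abs_of_nonneg (wt_nonneg _)]
      exact wt_le _
    have h5 : |‖P (b ^ y)‖ ^ 2 - ‖P (b ^ y')‖ ^ 2| ≤ 4 * Real.pi * BB b C * b ^ (m + 3) * Real.log b * |y - y'| := by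
      have h6 : ‖P (b ^ y)‖ ^ 2 - ‖P (b ^ y')‖ ^ 2 = (‖P (b ^ y)‖ + ‖P (b ^ y')‖) * (‖P (b ^ y)‖ - ‖P (b ^ y')‖) := by ring
      rw [h6, abs_mul]
      have h7 : |‖P (b ^ y)‖ + ‖P (b ^ y')‖| ≤ 2 := by
        rw [abs_of_nonneg (by positivity)]
        have := psi_norm (μ := μ) (b := b) (C := C) (T := T) (ξ := ξ) (past T ξ ω) (b ^ y)
        have := psi_norm (μ := μ) (b := b) (C := C) (T := T) (ξ := ξ) (past T ξ ω) (b ^ y')
        rw [← hP] at *
        linarith
      have h8 : |‖P (b ^ y)‖ - ‖P (b ^ y')‖| ≤ 2 * Real.pi * BB b C * (b ^ (m + 3) * Real.log b * |y - y'|) := by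
        refine (abs_norm_sub_norm_le _ _).trans ((psi_lip hS _ _ _).trans ?_)
        have h9 := rpow_lip hS.hb hy hy'
        have h10 : b ^ ((m : ℝ) + 3) = b ^ (m + 3) := by
          rw [← Real.rpow_natCast]
          push_cast
          rfl
        rw [h10] at h9
        gcongr
      calc |‖P (b ^ y)‖ + ‖P (b ^ y')‖| * |‖P (b ^ y)‖ - ‖P (b ^ y')‖| ≤
            2 * (2 * Real.pi * BB b C * (b ^ (m + 3) * Real.log b * |y - y'|)) := by gcongr
        _ = _ := by ring
    calc |wt (y - (m + 1)) - wt (y' - (m + 1))| * |‖P (b ^ y)‖ ^ 2| +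
          |wt (y' - (m + 1))| * |‖P (b ^ y)‖ ^ 2 - ‖P (b ^ y')‖ ^ 2| ≤
          |y - y'| * 1 + 1 * (4 * Real.pi * BB b C * b ^ (m + 3) * Real.log b * |y - y'|) := by gcongr
      _ = _ := by ring
  refine ⟨?_, ?_, ?_, ?_, ?_⟩
  · intro y
    unfold qq
    have h1 : Measurable fun ω => psi μ b C T ξ (past T ξ ω) (b ^ y) :=
      psi_meas.comp ((measurable_past hS).prodMk measurable_const)
    exact (h1.norm.pow_const 2).const_mul _
  · intro ω y y'
    rcases le_total y ((m : ℝ) + 3) with h | h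
    · rcases le_total y' ((m : ℝ) + 3) with h' | h'
      · exact hin ω y y' h h'
      · have h1 := hin ω y ((m : ℝ) + 3) h le_rfl
        rw [hzero ω ((m : ℝ) + 3) (Or.inr le_rfl), sub_zero] at h1
        rw [hzero ω y' (Or.inr h'), sub_zero]
        refine h1.trans ?_
        have h2 : |y - ((m : ℝ) + 3)| ≤ |y - y'| := by
          rw [abs_of_nonpos (by linarith), abs_of_nonpos (by linarith)]
          linarith
        gcongr
    · rcases le_total y' ((m : ℝ) + 3) with h' | h'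
      · have h1 := hin ω ((m : ℝ) + 3) y' le_rfl h'
        rw [hzero ω ((m : ℝ) + 3) (Or.inr le_rfl)] at h1
        rw [hzero ω y (Or.inr h)]
        refine h1.trans ?_
        have h2 : |((m : ℝ) + 3) - y'| ≤ |y - y'| := by
          rw [abs_of_nonneg (by linarith), abs_of_nonneg (by linarith)]
          linarith
        gcongr
      · rw [hzero ω y (Or.inr h), hzero ω y' (Or.inr h'), sub_zero, abs_zero]
        positivity
  · intro ω y
    exact mul_nonneg (wt_nonneg _) (by positivity)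
  · intro ω y
    exact mul_le_one₀ (wt_le _) (by positivity) (hsq _ _)
  · intro ω y h
    apply hzero
    rcases h with h | h
    · left
      exact h.trans (Nat.cast_nonneg m)
    · right
      exact h

end Pool.Agent.Helper32.HP
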