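import Mathlib
import Pool.Agent.Helper59.RE.Defs

/-!
# Project HP (MP_9056e9_nt): stationary expansions.  Definitions

`T` is an invertible measure preserving transformation, `ξ` a bounded real function, `b > 1` a real
number, `X = ∑_(k ≥ 0) ξ(T^k ω) b^(-k)`, the past of `ω` is the sequence
`ξ(T^(-1) ω), ξ(T^(-2) ω), ...`.  `kap p` is the law of `X` given that the past is `p`.
-/

set_option autoImplicit false

namespace Pool.Agent.Helper32.HP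

open Finset MeasureTheory ProbabilityTheory Filter Topology
open Pool.Agent.Helper59.RE (e)

variable {Ω : Type*} [MeasurableSpace Ω]

/-- the past of the process: `past ω j = ξ (T^(-(j+1)) ω)` -/
def past (T : Ω ≃ᵐ Ω) (ξ : Ω → ℝ) (ω : Ω) : ℕ → ℝ := fun j => ξ (T.symm^[j + 1] ω)

/-- the series -/
noncomputable def XX (b : ℝ) (T : Ω ≃ᵐ Ω) (ξ : Ω → ℝ) (ω : Ω) : ℝ := ∑' k : ℕ, ξ (T^[k] ω) / b ^ k

/-- the partial sums -/
noncomputable def Xs (b : ℝ) (T : Ω ≃ᵐ Ω) (ξ : Ω → ℝ) (k : ℕ) (ω : Ω) : ℝ :=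
  ∑ j ∈ range k, ξ (T^[j] ω) / b ^ j

/-- the hypotheses on the process -/
structure Sys (μ : Measure Ω) (b C : ℝ) (T : Ω ≃ᵐ Ω) (ξ : Ω → ℝ) : Prop where
  hb : 1 < b
  hT : MeasurePreserving T μ μ
  hξ : Measurable ξ
  hC : ∀ ω, |ξ ω| ≤ C

/-- the bound for `X` -/
noncomputable def BB (b C : ℝ) : ℝ := C * b / (b - 1)

/-- truncation to `[-B, B]` -/
noncomputable def cl (B x : ℝ) : ℝ := max (-B) (min B x)

/-- the law of `X` given the past -/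
noncomputable def kap (μ : Measure Ω) [IsFiniteMeasure μ] (b : ℝ) (T : Ω ≃ᵐ Ω) (ξ : Ω → ℝ) :
    Kernel (ℕ → ℝ) ℝ := condDistrib (XX b T ξ) (past T ξ) μ

/-- the characteristic function of `X` given the past -/
noncomputable def psi (μ : Measure Ω) [IsFiniteMeasure μ] (b C : ℝ) (T : Ω ≃ᵐ Ω) (ξ : Ω → ℝ)
    (p : ℕ → ℝ) (t : ℝ) : ℂ := ∫ x, e (t * cl (BB b C) x) ∂(kap μ b T ξ p)

/-- the past at time `k` as a sigma algebra: it is generated by `ξ ∘ T^j`, `j < k` -/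
abbrev GG (T : Ω ≃ᵐ Ω) (ξ : Ω → ℝ) (k : ℕ) : MeasurableSpace Ω :=
  MeasurableSpace.comap (fun ω => past T ξ (T^[k] ω)) inferInstance

/-- the trapezoid: `1` on `[0,1]`, `0` outside of `(-1,2)` -/
noncomputable def wt (x : ℝ) : ℝ := max 0 (min 1 (min (x + 1) (2 - x)))

/-- the conditional characteristic function in logarithmic scale near depth `m + 1`; it is supported
in `[m, m + 3]` -/
noncomputable def qq (μ : Measure Ω) [IsFiniteMeasure μ] (b C : ℝ) (T : Ω ≃ᵐ Ω) (ξ : Ω → ℝ) (m : ℕ)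
    (ω : Ω) (y : ℝ) : ℝ := wt (y - (m + 1)) * ‖psi μ b C T ξ (past T ξ ω) (b ^ y)‖ ^ 2

/-- the sum of `q` along the orbit of `ω`, at height `y` -/
noncomputable def SQ (T : Ω → Ω) (q : Ω → ℝ → ℝ) (ω : Ω) (y : ℝ) : ℝ :=
  ∑ k ∈ range (⌊y⌋₊ + 1), q (T^[k] ω) (y - k)

/-- the conditions on `q`: measurable in `ω`, Lipschitz and supported in `[0,A]` in `y`, values in
`[0,1]` -/
structure IsQ (q : Ω → ℝ → ℝ) (Λ A : ℝ) : Prop where
  m : ∀ y, Measurable (fun ω => q ω y)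
  l : ∀ ω y y', |q ω y - q ω y'| ≤ Λ * |y - y'|
  nn : ∀ ω y, 0 ≤ q ω y
  le1 : ∀ ω y, q ω y ≤ 1
  s : ∀ ω y, y ≤ 0 ∨ A ≤ y → q ω y = 0

/-- the mean of `q` -/
noncomputable def JJ (μ : Measure Ω) (q : Ω → ℝ → ℝ) (A : ℝ) : ℝ :=
  ∫ ω, (∫ y in (0 : ℝ)..A, q ω y) ∂μ

/-- growth of the slopes at a point: what the law of large numbers needs -/
def GrL (b c₀ B₂ δ : ℝ) (Df : ℕ → ℝ → ℝ) (x : ℝ) : Prop :=
  ∃ β : ℝ, 1 < β ∧ c₀ * Real.log b < Real.log β ∧ Real.log B₂ < Real.log β + δ * c₀ * Real.log b ∧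
    (∀ᶠ n : ℕ in atTop, Df n x ≠ 0) ∧
    Tendsto (fun n : ℕ => Real.log |Df (n + 1) x| - Real.log |Df n x|) atTop (𝓝 (Real.log β))

/-- growth of the slopes at a point: either the given rate `β₀` and the given phase `s₀`, or a rate
outside of the exceptional set `E` -/
def Gr (b c₀ B₂ δ : ℝ) (E : Set ℝ) (β₀ s₀ : ℝ) (Df : ℕ → ℝ → ℝ) (x : ℝ) : Prop :=
  ∃ β : ℝ, 1 < β ∧ c₀ * Real.log b < Real.log β ∧ Real.log B₂ < Real.log β + δ * c₀ * Real.log b ∧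
    (∀ᶠ n : ℕ in atTop, Df n x ≠ 0) ∧
    ((β = β₀ ∧ Irrational (Real.log β / Real.log b) ∧
        Tendsto (fun n : ℕ => Real.log |Df n x| - (n * Real.log β + s₀)) atTop (𝓝 0)) ∨
      (Real.log β / Real.log b ∉ E ∧
        Tendsto (fun n : ℕ => Real.log |Df (n + 1) x| - Real.log |Df n x|) atTop (𝓝 (Real.log β))))

end Pool.Agent.Helper32.HP
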