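import Pool.Agent.Helper32.HP.Defs
import Pool.Agent.Helper17.HP.Lin

/-!
# HP-B2 (helper17): a given phase and a given irrational rate

Put `Q ω u = ∑_n q ω (α (n + u))` (1-periodic and Lipschitz in `u`).  For `y n = n α + s + o(1)` the sum
`∑_(n<N) ∑_k q (T^k ω) (y n - k)` is `∑_(k < α N) Q (T^k ω) ((s - k)/α) + o(N)`.  Birkhoff's theorem
(`birkhoff_bdd`, Helper18/SD/King.lean) for `R(ω,u) = (T ω, u - 1/α)` on `Ω × circle` gives
`∫ ∫ limsup = ∫ ∫ Q`.  `φ(s) = ∫ limsup(ω,s) dμ` is Lipschitz, periodic and invariant under the rotation,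
so it is constant and equal to the mean.
-/

set_option autoImplicit false

namespace Pool.Agent.Helper32.HP

open Finset MeasureTheory ProbabilityTheory Filter Topology
open scoped NNReal

section fix

variable {Ω : Type*} [MeasurableSpace Ω] {q : Ω → ℝ → ℝ} {Λ A : ℝ}

private theorem isQ_wt (hq : IsQ q Λ A) : Pool.Agent.Helper17.HP.Wt q A (Real.toNNReal Λ) where
  meas := hq.m
  nonneg := hq.nn
  le_one := hq.le1
  supp := by
    intro w u hu
    apply hq.s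
    by_contra h
    push Not at h
    exact hu ⟨h.1.le, h.2.le⟩
  lip := by
    intro w
    refine LipschitzWith.of_dist_le_mul fun y y' => ?_
    rw [Real.dist_eq, Real.dist_eq]
    exact (hq.l w y y').trans (mul_le_mul_of_nonneg_right (Real.le_coe_toNNReal Λ) (abs_nonneg _))

private theorem SQ_eq (hq : IsQ q Λ A) (T : Ω → Ω) (ω : Ω) (y : ℝ) (K : ℕ) (hK : ⌊y⌋₊ + 1 ≤ K) :
    SQ T q ω y = ∑ k ∈ range K, q (T^[k] ω) (y - k) := by
  unfold SQ
  refine Finset.sum_subset (Finset.range_subset_range.2 hK) fun k _ hk => ?_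
  rw [Finset.mem_range, not_lt] at hk
  apply hq.s
  left
  have h1 : y < (⌊y⌋₊ : ℝ) + 1 := Nat.lt_floor_add_one y
  have h2 : ((⌊y⌋₊ + 1 : ℕ) : ℝ) ≤ k := by exact_mod_cast hk
  push_cast at h2
  linarith

private theorem card_near (A y : ℝ) (K : ℕ) :
    ((range K).filter fun k : ℕ => 0 ≤ y - k ∧ y - k ≤ A).card ≤ ⌊A⌋₊ + 2 := by
  classical
  have h : ((range K).filter fun k : ℕ => 0 ≤ y - k ∧ y - k ≤ A) ⊆
      Finset.Icc (⌊y⌋₊ - (⌊A⌋₊ + 1)) ⌊y⌋₊ := by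
    intro k hk
    rw [Finset.mem_filter] at hk
    obtain ⟨-, h1, h2⟩ := hk
    rw [Finset.mem_Icc]
    have h3 : k ≤ ⌊y⌋₊ := Nat.le_floor (by linarith)
    refine ⟨?_, h3⟩
    have h0 : 0 ≤ y := by
      have := Nat.cast_nonneg (α := ℝ) k
      linarith
    have h4 : (⌊y⌋₊ : ℝ) ≤ y := Nat.floor_le h0
    have h5 : A < (⌊A⌋₊ : ℝ) + 1 := Nat.lt_floor_add_one A
    have h6 : (⌊y⌋₊ : ℝ) < k + (⌊A⌋₊ + 1) := by linarith
    have h7 : ⌊y⌋₊ < k + (⌊A⌋₊ + 1) := by exact_mod_cast h6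
    omega
  refine (Finset.card_le_card h).trans ?_
  rw [Nat.card_Icc]
  omega

private theorem SQ_lip (hq : IsQ q Λ A) (T : Ω → Ω) (ω : Ω) (y y' : ℝ) :
    SQ T q ω y ≤ SQ T q ω y' + (2 * ((⌊A⌋₊ : ℝ) + 2)) * (|Λ| * |y - y'|) := by
  classical
  set K := max (⌊y⌋₊ + 1) (⌊y'⌋₊ + 1)
  rw [SQ_eq hq T ω y K (le_max_left _ _), SQ_eq hq T ω y' K (le_max_right _ _)]
  set S := (range K).filter fun k : ℕ => (0 ≤ y - k ∧ y - k ≤ A) ∨ (0 ≤ y' - k ∧ y' - k ≤ A) with hS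
  have h1 : ∀ k ∈ range K, q (T^[k] ω) (y - k) ≤ q (T^[k] ω) (y' - k) + if k ∈ S then |Λ| * |y - y'| else 0 := by
    intro k hk
    split_ifs with h
    · have h2 := (abs_le.1 (hq.l (T^[k] ω) (y - k) (y' - k))).2
      have h3 : y - k - (y' - k) = y - y' := by ring
      rw [h3] at h2
      have h4 : Λ * |y - y'| ≤ |Λ| * |y - y'| := mul_le_mul_of_nonneg_right (le_abs_self _) (abs_nonneg _)
      linarith
    · have h2 : q (T^[k] ω) (y - k) = 0 := by
        apply hq.s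
        by_contra hcon
        push Not at hcon
        exact h (Finset.mem_filter.2 ⟨hk, Or.inl ⟨hcon.1.le, hcon.2.le⟩⟩)
      rw [h2, add_zero]
      exact hq.nn _ _
  refine (Finset.sum_le_sum h1).trans ?_
  rw [Finset.sum_add_distrib]
  have h2 : ∑ k ∈ range K, (if k ∈ S then |Λ| * |y - y'| else 0) = S.card * (|Λ| * |y - y'|) := by
    rw [← Finset.sum_filter]
    have h3 : (range K).filter (fun k => k ∈ S) = S := by
      rw [Finset.filter_mem_eq_inter]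
      exact Finset.inter_eq_right.2 (Finset.filter_subset _ _)
    rw [h3, Finset.sum_const, nsmul_eq_mul]
  rw [h2]
  have h3 : (S.card : ℝ) ≤ 2 * ((⌊A⌋₊ : ℝ) + 2) := by
    have h4 : S.card ≤ (⌊A⌋₊ + 2) + (⌊A⌋₊ + 2) := by
      rw [hS, Finset.filter_or]
      exact (Finset.card_union_le _ _).trans (add_le_add (card_near A y K) (card_near A y' K))
    have h5 : (S.card : ℝ) ≤ ((⌊A⌋₊ : ℝ) + 2) + ((⌊A⌋₊ : ℝ) + 2) := by exact_mod_cast h4
    linarith
  have h4 : 0 ≤ |Λ| * |y - y'| := by positivity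
  linarith [mul_le_mul_of_nonneg_right h3 h4]

private theorem sum_le_H (hq : IsQ q Λ A) {α : ℝ} (hα : 0 < α) {M : ℕ} (hM : A < α * M) (ω : Ω) (t : ℝ) (N : ℕ) :
    ∑ n ∈ range N, q ω (α * (t + n)) ≤ Pool.Agent.Helper17.HP.H q α ω t := by
  classical
  rw [Pool.Agent.Helper17.HP.H_eq (isQ_wt hq) hα hM ω t
    (Finset.Ico (-⌊t⌋) (M - ⌊t⌋) ∪ (range N).image fun n : ℕ => (n : ℤ)) Finset.subset_union_left]
  have h1 : ∑ n ∈ range N, q ω (α * (t + n)) = ∑ m ∈ (range N).image (fun n : ℕ => (n : ℤ)), q ω (α * (t + m)) := by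
    rw [Finset.sum_image fun a _ b _ h => by exact_mod_cast h]
    exact Finset.sum_congr rfl fun n _ => by push_cast; rfl
  rw [h1]
  exact Finset.sum_le_sum_of_subset_of_nonneg Finset.subset_union_right fun m _ _ => hq.nn _ _

private theorem sum_SQ_le (hq : IsQ q Λ A) {α : ℝ} (hα : 0 < α) {M : ℕ} (hM : A < α * M) (T : Ω → Ω) (ω : Ω)
    (s : ℝ) (N : ℕ) :
    ∑ n ∈ range N, SQ T q ω (n * α + s) ≤
      (⌊N * α + |s|⌋₊ + 1 : ℕ) * Pool.Agent.Helper17.HP.av q α T ω (s * α⁻¹) (⌊N * α + |s|⌋₊ + 1) := by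
  set K := ⌊N * α + |s|⌋₊ + 1 with hK
  have h1 : ∀ n ∈ range N, SQ T q ω (n * α + s) = ∑ k ∈ range K, q (T^[k] ω) (n * α + s - k) := by
    intro n hn
    rw [Finset.mem_range] at hn
    apply SQ_eq hq
    rw [hK]
    have h2 : (n : ℝ) * α + s ≤ N * α + |s| := by
      have h3 : (n : ℝ) ≤ N := by exact_mod_cast hn.le
      exact add_le_add (mul_le_mul_of_nonneg_right h3 hα.le) (le_abs_self s)
    exact Nat.add_le_add_right (Nat.floor_le_floor h2) 1
  rw [Finset.sum_congr rfl h1, Finset.sum_comm]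
  have h2 : ((K : ℕ) : ℝ) * Pool.Agent.Helper17.HP.av q α T ω (s * α⁻¹) K =
      ∑ k ∈ range K, Pool.Agent.Helper17.HP.H q α (T^[k] ω) (s * α⁻¹ - k * α⁻¹) := by
    unfold Pool.Agent.Helper17.HP.av
    rw [mul_div_cancel₀]
    rw [hK]
    positivity
  rw [h2]
  refine Finset.sum_le_sum fun k _ => ?_
  refine (le_of_eq ?_).trans (sum_le_H hq hα hM (T^[k] ω) (s * α⁻¹ - k * α⁻¹) N)
  refine Finset.sum_congr rfl fun n _ => ?_
  congr 1
  field_simp
  ring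

end fix

theorem fixed_phase {Ω : Type*} [MeasurableSpace Ω] {μ : Measure Ω} [IsProbabilityMeasure μ] {T : Ω → Ω}
    (hT : MeasurePreserving T μ μ) {q : Ω → ℝ → ℝ} {Λ A : ℝ} (hq : IsQ q Λ A) (α : ℝ) (hα : 0 < α)
    (hirr : Irrational α) (s : ℝ) :
    ∃ G : Ω → ℝ, Measurable G ∧ (∀ ω, 0 ≤ G ω) ∧ (∃ M : ℝ, ∀ ω, G ω ≤ M) ∧ ∫ ω, G ω ∂μ ≤ JJ μ q A ∧
      ∀ᵐ ω ∂μ, ∀ y : ℕ → ℝ, Tendsto (fun n : ℕ => y n - (n * α + s)) atTop (𝓝 0) →
        ∀ ε : ℝ, 0 < ε → ∀ᶠ N : ℕ in atTop, ∑ n ∈ range N, SQ T q ω (y n) ≤ N * (G ω + ε) := by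
  obtain ⟨M, hM'⟩ := exists_nat_gt (A / α)
  have hM : A < α * M := by
    rw [div_lt_iff₀ hα] at hM'
    linarith
  have hw := isQ_wt hq
  refine ⟨fun ω => α * Pool.Agent.Helper17.HP.ls q α T ω (s * α⁻¹),
    (Pool.Agent.Helper17.HP.ls_meas' hw hα hM hT.measurable _).const_mul _,
    fun ω => mul_nonneg hα.le (Pool.Agent.Helper17.HP.ls_nonneg hw hα hM T ω _),
    ⟨α * M, fun ω => mul_le_mul_of_nonneg_left (abs_le.1 (Pool.Agent.Helper17.HP.ls_bdd hw hα hM T ω _)).2 hα.le⟩,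
    ?_, Eventually.of_forall fun ω y hy ε hε => ?_⟩
  · rw [integral_const_mul]
    have h1 := Pool.Agent.Helper17.HP.ell_eq (μ := μ) hw hα hirr hM hT (s * α⁻¹)
    unfold Pool.Agent.Helper17.HP.ell at h1
    rw [h1, ← mul_assoc, mul_inv_cancel₀ hα.ne', one_mul]
    exact le_rfl
  · set L := Pool.Agent.Helper17.HP.ls q α T ω (s * α⁻¹) with hL
    have hL0 : 0 ≤ L := Pool.Agent.Helper17.HP.ls_nonneg hw hα hM T ω _
    set C := (2 * ((⌊A⌋₊ : ℝ) + 2)) * |Λ| with hC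
    have hC0 : 0 ≤ C := by positivity
    -- the perturbation
    have h1 : ∀ᶠ N : ℕ in atTop, C * ∑ n ∈ range N, |y n - (n * α + s)| ≤ N * (ε / 3) := by
      have h2 := (hy.abs.cesaro).const_mul C
      rw [abs_zero, mul_zero] at h2
      filter_upwards [h2.eventually (gt_mem_nhds (show (0 : ℝ) < ε / 3 by linarith)), eventually_gt_atTop 0] with N hN hN0
      have h3 : (0 : ℝ) < N := by exact_mod_cast hN0
      have h4 := mul_le_mul_of_nonneg_left hN.le h3.le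
      calc C * ∑ n ∈ range N, |y n - (n * α + s)| = N * (C * ((N : ℝ)⁻¹ * ∑ n ∈ range N, |y n - (n * α + s)|)) := by
            rw [mul_left_comm, mul_inv_cancel_left₀ h3.ne']
        _ ≤ _ := h4
    -- the averages
    have hKt : Tendsto (fun N : ℕ => ⌊(N : ℝ) * α + |s|⌋₊ + 1) atTop atTop := by
      refine Tendsto.comp (tendsto_add_atTop_nat 1) ?_
      apply tendsto_nat_floor_atTop.comp
      exact tendsto_atTop_add_const_right _ _ (tendsto_natCast_atTop_atTop.atTop_mul_const hα)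
    have h5 : ∀ᶠ K : ℕ in atTop, Pool.Agent.Helper17.HP.av q α T ω (s * α⁻¹) K < L + ε / (3 * α) :=
      eventually_lt_of_limsup_lt (by rw [← Pool.Agent.Helper17.HP.ls, ← hL]; linarith [show 0 < ε / (3 * α) by positivity])
        (isBoundedUnder_of ⟨M, fun n => (abs_le.1 (Pool.Agent.Helper17.HP.av_bdd hw hα hM T ω _ n)).2⟩)
    have h6 := hKt.eventually h5
    have h7 : ∀ᶠ N : ℕ in atTop, (L + ε / (3 * α)) * (|s| + 1) ≤ N * (ε / 3) :=
      (tendsto_natCast_atTop_atTop.atTop_mul_const (show (0 : ℝ) < ε / 3 by linarith)).eventually_ge_atTop _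
    filter_upwards [h1, h6, h7] with N a1 a2 a3
    have b1 : ∑ n ∈ range N, SQ T q ω (y n) ≤
        ∑ n ∈ range N, SQ T q ω (n * α + s) + C * ∑ n ∈ range N, |y n - (n * α + s)| := by
      rw [Finset.mul_sum, ← Finset.sum_add_distrib]
      refine Finset.sum_le_sum fun n _ => ?_
      have := SQ_lip hq T ω (y n) (n * α + s)
      rw [hC]
      linarith
    have b2 := sum_SQ_le hq hα hM T ω s N
    have hLe : 0 ≤ L + ε / (3 * α) := by positivity
    have b3 : ((⌊(N : ℝ) * α + |s|⌋₊ + 1 : ℕ) : ℝ) ≤ N * α + (|s| + 1) := by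
      push_cast
      have := Nat.floor_le (show 0 ≤ (N : ℝ) * α + |s| by positivity)
      linarith
    have b4 : ((⌊(N : ℝ) * α + |s|⌋₊ + 1 : ℕ) : ℝ) * Pool.Agent.Helper17.HP.av q α T ω (s * α⁻¹) (⌊(N : ℝ) * α + |s|⌋₊ + 1) ≤
        (N * α + (|s| + 1)) * (L + ε / (3 * α)) :=
      (mul_le_mul_of_nonneg_left a2.le (Nat.cast_nonneg _)).trans (mul_le_mul_of_nonneg_right b3 hLe)
    have b5 : (N * α + (|s| + 1)) * (L + ε / (3 * α)) = N * (α * L + ε / 3) + (L + ε / (3 * α)) * (|s| + 1) := by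
      field_simp
    have b6 : (N : ℝ) * (α * L + ε) = N * (α * L + ε / 3) + N * (ε / 3) + N * (ε / 3) := by ring
    linarith

end Pool.Agent.Helper32.HP
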