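import Pool.Agent.Helper32.HP.Defs
import Pool.Agent.Helper59.HP.Fin

/-!
# HP-B3 (helper59): arbitrary phases and all rates outside of a countable set

(a) Interpolate `q` linearly in `y` on a rational grid: finite sums of `u(ω) Λ(y)`, `u = q(., y_i)`.
(b) For bounded `u` the set of `θ` for which `(1/L) ∑_(l<L) u(T^l ω) e(l θ)` does not tend to `0` in `L^2` is
countable: von Neumann's theorem for the isometry `e(θ) u ∘ T`, the limits `P_θ u` are orthogonal, Bessel.
(c) `∑_(n<L) ∑_k u(T^k ω) Λ(s + n α - k) = ∑_(k < α L) u(T^k ω) λ(s - k) + O(1)` with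
`λ(x) = ∑_n Λ(x + n α)` continuous and `α`-periodic; approximate `λ` by trigonometric polynomials
(`span_fourier_closure_eq_top`).  So `D_L(ω, α) = sup_s |(1/L) ∑_(n<L) ... - mean|` has `∫ D_L → 0` unless
`α` belongs to a countable set.
(d) `D_L` is Lipschitz in `α`: Birkhoff (`birkhoff_bdd`) for `D_L(., α_i)`, `α_i` dense, `L` fixed, then `L → ∞`.
-/

set_option autoImplicit false

namespace Pool.Agent.Helper32.HP

open Finset MeasureTheory ProbabilityTheory Filter Topology

theorem free_phase {Ω : Type*} [MeasurableSpace Ω] {μ : Measure Ω} [IsProbabilityMeasure μ] {T : Ω → Ω}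
    (hT : Ergodic T μ) {q : Ω → ℝ → ℝ} {Λ A : ℝ} (hq : IsQ q Λ A) :
    ∃ E : Set ℝ, E.Countable ∧ ∀ᵐ ω ∂μ, ∀ α : ℝ, 0 < α → α ∉ E → ∀ y : ℕ → ℝ,
      Tendsto (fun n : ℕ => y (n + 1) - y n) atTop (𝓝 α) →
        ∀ ε : ℝ, 0 < ε → ∀ᶠ N : ℕ in atTop, ∑ n ∈ range N, SQ T q ω (y n) ≤ N * (JJ μ q A + ε) := by
  haveI : Nonempty Ω := nonempty_of_isProbabilityMeasure μ
  have hΛ : 0 ≤ Λ := by
    have h := (abs_nonneg _).trans (hq.l (Classical.arbitrary Ω) 0 1)
    simpa using h
  rcases le_or_gt 0 A with hA | hA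
  · exact Pool.Agent.Helper59.HP.free_pos hT hA hΛ hq
  · refine ⟨∅, Set.countable_empty, Eventually.of_forall fun ω α _ _ y _ ε hε => ?_⟩
    have h0 : ∀ ω y, q ω y = 0 := fun ω y => hq.s ω y (by
      rcases le_or_gt y 0 with h | h
      · exact Or.inl h
      · exact Or.inr (hA.trans h).le)
    refine Eventually.of_forall fun N => ?_
    have h1 : ∀ n, SQ T q ω (y n) = 0 := fun n => by
      unfold SQ; simp [h0]
    have h2 : JJ μ q A = 0 := by
      unfold JJ; simp [h0]
    simp only [h1, h2, Finset.sum_const_zero, zero_add]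
    positivity

end Pool.Agent.Helper32.HP
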