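import Pool.Agent.Helper32.HP.Lead

/-!
# HP-B7 (helper32): the joint theorem

Leader multiple: `F n x = x V_n`, `V_n = P β^n (1+o(1))`, `P = ∑_j h_j ρ_j ≠ 0`, so `Gr` holds with `β₀ = β`,
`s₀ = log |P|`.  Leader power: `F n x = σ p(g x) (g x)^n`, `p(t) = ∑_j h_j t^j`, slope
`σ g' g^(n-1) (n p(g) + g p'(g))`, the increments of the logarithm tend to `log (g x)`.
-/

set_option autoImplicit false

namespace Pool.Agent.Helper32.HP

open Finset MeasureTheory ProbabilityTheory Filter Topology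
open Pool.Agent.Helper59.RE (e norm_e e_add e_sub conj_e continuous_e e_zero)
open Pool.Agent.Helper46.TK (TermAt HolAt LHol icc_of_abs mult_term pow_term fiber_countable)

variable {Ω : Type*} [MeasurableSpace Ω] {μ : Measure Ω} {b C : ℝ} {T : Ω ≃ᵐ Ω} {ξ : Ω → ℝ}

/-- the points at which an integer combination of powers of `g` vanishes are countable in number -/
theorem alg_countable (g : ℝ → ℝ) (hd : Differentiable ℝ g) (hz : {x | deriv g x = 0}.Countable) {k : ℕ}
    (h : Fin k → ℤ) (hh : h ≠ 0) : {x | ∑ j : Fin k, (h j : ℝ) * g x ^ (j : ℕ) = 0}.Countable := by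
  classical
  set Q : Polynomial ℝ := ∑ j : Fin k, Polynomial.C ((h j : ℤ) : ℝ) * Polynomial.X ^ (j : ℕ) with hQ
  have hQ0 : Q ≠ 0 := by
    obtain ⟨j, hj⟩ := Function.ne_iff.mp hh
    intro h0
    have h3 : Q.coeff (j : ℕ) = ((h j : ℤ) : ℝ) := by
      rw [hQ, Polynomial.finsetSum_coeff]
      simp only [Polynomial.coeff_C_mul, Polynomial.coeff_X_pow]
      rw [sum_eq_single j]
      · simp
      · intro j' _ hj'
        rw [if_neg (fun h => hj' (Fin.ext h.symm)), mul_zero]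
      · intro hj
        exact absurd (mem_univ j) hj
    rw [h0, Polynomial.coeff_zero] at h3
    have : h j = 0 := by exact_mod_cast h3.symm
    exact hj this
  have hev : ∀ x, ∑ j : Fin k, (h j : ℝ) * g x ^ (j : ℕ) = Q.eval (g x) := by
    intro x
    rw [hQ, Polynomial.eval_finsetSum]
    simp
  have hsub : {x | ∑ j : Fin k, (h j : ℝ) * g x ^ (j : ℕ) = 0} ⊆ ⋃ y ∈ (Q.roots.toFinset : Set ℝ), {x | g x = y} := by
    intro x hx
    rw [Set.mem_ofPred_eq, hev] at hx
    rw [Set.mem_iUnion₂]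
    exact ⟨g x, by rw [Finset.mem_coe, Multiset.mem_toFinset, Polynomial.mem_roots hQ0]; exact hx, rfl⟩
  refine Set.Countable.mono hsub ?_
  exact Set.Countable.biUnion (Finset.countable_toSet _) fun y _ => fiber_countable g hd hz y

/-- the exceptional set of the powers is countable -/
theorem excE_countable (b : ℝ) (hb : 1 < b) (E : Set ℝ) (hE : E.Countable) (g : ℝ → ℝ) (hd : Differentiable ℝ g)
    (hz : {x | deriv g x = 0}.Countable) : {x | 1 < g x ∧ Real.log (g x) / Real.log b ∈ E}.Countable := by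
  have hlb : 0 < Real.log b := Real.log_pos hb
  have hsub : {x | 1 < g x ∧ Real.log (g x) / Real.log b ∈ E} ⊆ ⋃ α ∈ E, {x | g x = b ^ α} := by
    intro x hx
    rw [Set.mem_iUnion₂]
    refine ⟨_, hx.2, ?_⟩
    rw [Set.mem_ofPred_eq]
    have h1 : 0 < g x := zero_lt_one.trans hx.1
    have hb0 : 0 < b := zero_lt_one.trans hb
    rw [Real.rpow_def_of_pos hb0, mul_div_cancel₀ _ hlb.ne', Real.exp_log h1]
  exact (hE.biUnion fun α _ => fiber_countable g hd hz _).mono hsub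

/-- joint exponential sums -/
theorem joint_weylS (hS : Sys μ b C T ξ) [IsProbabilityMeasure μ] (hE : Ergodic T μ)
    (hX : ∀ f : (ℕ → ℝ) → ℝ, Measurable f → ¬ (XX b T ξ =ᵐ[μ] fun ω => f (past T ξ ω)))
    (D : ℕ) (a : ℕ → ℕ) (ha : StrictMono a) (haD : ∀ n, a n ≤ D * (n + 1)) (c : ℕ → ℝ)
    {d k s : ℕ} (β γ K : Fin d → ℝ) (hinj : Function.Injective β) (hβ : ∀ i, 1 < β i)
    (hirr : ∀ i, Irrational (Real.log (β i) / Real.log b)) (hγ0 : ∀ i, 0 ≤ γ i) (hγ : ∀ i, γ i < β i)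
    (g : Fin s → ℝ → ℝ) (hg : ∀ l, LHol (g l)) (hgz : ∀ l, {x | deriv (g l) x = 0}.Countable)
    (hgg : ∀ l m, l ≠ m → {x | g l x = g m x}.Countable)
    (P : Fin d → ℝ) (w : Fin d → ℕ → ℝ) (hw : ∀ i n, |w i n - P i * β i ^ n| ≤ K i * γ i ^ n)
    (hw0 : ∀ i, P i = 0 → ∀ n, w i n = 0) (σ : Fin s → ℝ) (hσ : ∀ l, σ l ≠ 0) (H : Fin s → Fin k → ℤ)
    (hPQ : (∃ i, P i ≠ 0) ∨ ∃ l, H l ≠ 0) :
    ∀ᵐ ω ∂μ, (∀ l, 1 < g l (XX b T ξ ω)) → Tendsto (fun N : ℕ => ‖∑ i ∈ range N,
      e ((∑ j, XX b T ξ ω * w j (a i)) + (∑ l, ∑ j : Fin k, σ l * (H l j : ℝ) * g l (XX b T ξ ω) ^ (a i + (j : ℕ))) + c i)‖ / N)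
        atTop (𝓝 0) := by
  classical
  have hna := noAtoms hS hE hX
  obtain ⟨E, hEc, hW⟩ := weyl hS hE hX
  -- the exceptional set
  set N : Set ℝ := (⋃ l, {x | deriv (g l) x = 0}) ∪
    (⋃ l, {x | 1 < g l x ∧ Real.log (g l x) / Real.log b ∈ E}) ∪ (⋃ l, ⋃ i, {x | g l x = β i}) ∪
    (⋃ l, ⋃ m, {x | l ≠ m ∧ g l x = g m x}) ∪
    (⋃ l, {x | H l ≠ 0 ∧ ∑ j : Fin k, (H l j : ℝ) * g l x ^ (j : ℕ) = 0}) with hN
  have hNc : N.Countable := by
    refine ((((Set.countable_iUnion hgz).union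
      (Set.countable_iUnion fun l => excE_countable b hS.hb E hEc (g l) (hg l).1 (hgz l))).union
      (Set.countable_iUnion fun l => Set.countable_iUnion fun i => fiber_countable (g l) (hg l).1 (hgz l) _)).union
      (Set.countable_iUnion fun l => Set.countable_iUnion fun m => ?_)).union (Set.countable_iUnion fun l => ?_)
    · by_cases hlm : l = m
      · have : {x | l ≠ m ∧ g l x = g m x} = ∅ := by
          ext x
          simp [hlm]
        rw [this]
        exact Set.countable_empty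
      · exact (hgg l m hlm).mono fun x hx => hx.2
    · by_cases hl : H l = 0
      · have : {x | H l ≠ 0 ∧ ∑ j : Fin k, (H l j : ℝ) * g l x ^ (j : ℕ) = 0} = ∅ := by
          ext x
          simp [hl]
        rw [this]
        exact Set.countable_empty
      · exact (alg_countable (g l) (hg l).1 (hgz l) (H l) hl).mono fun x hx => hx.2
  have hN2 : ∀ x, x ∉ N → ∀ l, deriv (g l) x ≠ 0 := by
    intro x hx l h
    exact hx (Or.inl (Or.inl (Or.inl (Or.inl (Set.mem_iUnion.2 ⟨l, h⟩)))))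
  have hN3 : ∀ x, x ∉ N → ∀ l, 1 < g l x → Real.log (g l x) / Real.log b ∉ E := by
    intro x hx l h1 h
    exact hx (Or.inl (Or.inl (Or.inl (Or.inr (Set.mem_iUnion.2 ⟨l, h1, h⟩)))))
  have hN4 : ∀ x, x ∉ N → ∀ l i, g l x ≠ β i := by
    intro x hx l i h
    exact hx (Or.inl (Or.inl (Or.inr (Set.mem_iUnion.2 ⟨l, Set.mem_iUnion.2 ⟨i, h⟩⟩))))
  have hN5 : ∀ x, x ∉ N → ∀ l m, l ≠ m → g l x ≠ g m x := by
    intro x hx l m hlm h
    exact hx (Or.inl (Or.inr (Set.mem_iUnion.2 ⟨l, Set.mem_iUnion.2 ⟨m, hlm, h⟩⟩)))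
  have hN6 : ∀ x, x ∉ N → ∀ l, H l ≠ 0 → ∑ j : Fin k, (H l j : ℝ) * g l x ^ (j : ℕ) ≠ 0 := by
    intro x hx l hl h
    exact hx (Or.inr (Set.mem_iUnion.2 ⟨l, hl, h⟩))
  -- the terms
  set F : Fin d ⊕ Fin s → ℕ → ℝ → ℝ := fun t n x => Sum.elim (fun i => x * w i n)
    (fun l => ∑ j : Fin k, σ l * (H l j : ℝ) * g l x ^ (n + (j : ℕ))) t with hF
  set Df : Fin d ⊕ Fin s → ℕ → ℝ → ℝ := fun t n x => Sum.elim (fun i => w i n)
    (fun l => ∑ j : Fin k, σ l * (H l j : ℝ) * (((n + (j : ℕ) : ℕ) : ℝ) * g l x ^ (n + (j : ℕ) - 1) * deriv (g l) x)) t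
    with hDf
  set act : Fin d ⊕ Fin s → Prop := Sum.elim (fun i => P i ≠ 0) (fun l => H l ≠ 0) with hact
  set A : Finset (Fin d ⊕ Fin s) := univ.filter (fun t => act t) with hA
  have hAne : A.Nonempty := by
    rcases hPQ with ⟨i, hi⟩ | ⟨l, hl⟩
    · exact ⟨Sum.inl i, mem_filter.2 ⟨mem_univ _, hi⟩⟩
    · exact ⟨Sum.inr l, mem_filter.2 ⟨mem_univ _, hl⟩⟩
  have hFm : ∀ n, Measurable (fun x => ∑ t ∈ A, F t n x) := by
    intro n
    refine Finset.measurable_fun_sum _ fun t _ => ?_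
    rcases t with i | l
    · exact measurable_id.mul_const _
    · exact Finset.measurable_fun_sum _ fun j _ => ((hg l).1.continuous.measurable.pow_const _).const_mul _
  have hDfm : ∀ n, Measurable (fun x => ∑ t ∈ A, Df t n x) := by
    intro n
    refine Finset.measurable_fun_sum _ fun t _ => ?_
    rcases t with i | l
    · exact measurable_const
    · exact Finset.measurable_fun_sum _ fun j _ =>
        ((((hg l).1.continuous.measurable.pow_const _).const_mul _).mul (measurable_deriv _)).const_mul _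
  have h1 := globalizeS (fun x => XX_ne hS hna x) E a c (fun u v F Df hF hDf δ K B₂ c₀ β₀ s₀ hδ hK hB hc₀ hlin h1 hgr =>
      hW D a ha haD c u v F Df hF hDf δ K B₂ c₀ β₀ s₀ hδ hK hB hc₀ hlin h1 hgr)
    (fun n x => ∑ t ∈ A, F t n x) (fun n x => ∑ t ∈ A, Df t n x)
    hFm hDfm N {x | ∀ l, 1 < g l x} hNc (ι := Option (Fin d)) (fun o => Option.elim o 0 β)
    (fun o => Option.elim o 0 (fun i => Real.log |P i|)) (by
      intro x₀ hx₀ hx₀N
      rw [Set.mem_ofPred_eq] at hx₀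
      -- the exponent
      have h2 : ∀ᶠ δ in 𝓝[>] (0 : ℝ), (∀ l, HolAt (g l) x₀ δ) ∧ δ < 1 ∧ 0 < δ := by
        refine Filter.Eventually.and (eventually_all.2 fun l => (hg l).eventually x₀)
          (Filter.Eventually.and ?_ self_mem_nhdsWithin)
        exact (eventually_lt_nhds one_pos).filter_mono nhdsWithin_le_nhds
      obtain ⟨δ, hδg, hδ1, hδ0⟩ := h2.exists
      -- the rates
      set rt : Fin d ⊕ Fin s → ℝ := Sum.elim β (fun l => g l x₀) with hrt
      have hrt1 : ∀ t, 1 < rt t := by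
        rintro (i | l)
        · exact hβ i
        · exact hx₀ l
      have hrtinj : Function.Injective rt := by
        rintro (i | l) (j | m) h
        · exact congrArg Sum.inl (hinj h)
        · exact absurd h.symm (hN4 x₀ hx₀N m i)
        · exact absurd h (hN4 x₀ hx₀N l j)
        · by_contra hne
          exact hN5 x₀ hx₀N l m (fun h => hne (congrArg Sum.inr h)) h
      have hmul : ∀ i, TermAt (fun n x => x * w i n) (fun n _ => w i n) x₀ (β i) δ := by
        intro i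
        have hβ0 : 0 < β i := zero_lt_one.trans (hβ i)
        have hK0 : 0 ≤ K i := by
          have := (abs_nonneg _).trans (hw i 0)
          simpa using this
        have hid : HolAt (fun x : ℝ => x) x₀ δ := by
          refine ⟨0, le_rfl, fun x y _ _ => ?_⟩
          simp
        have h5 := mult_term (fun x : ℝ => x) differentiable_id x₀ δ hδ0 hid (β i) (|P i| + K i) hβ0.le (by positivity)
          (w i) (fun n => by
            have h4 : |w i n| ≤ |w i n - P i * β i ^ n| + |P i * β i ^ n| := by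
              have := abs_add_le (w i n - P i * β i ^ n) (P i * β i ^ n)
              rwa [sub_add_cancel] at this
            have h5 : |P i * β i ^ n| = |P i| * β i ^ n := by rw [abs_mul, abs_of_pos (pow_pos hβ0 n)]
            have h6 : K i * γ i ^ n ≤ K i * β i ^ n := by
              have := hγ0 i
              have := (hγ i).le
              gcongr
            have h7 := hw i n
            rw [h5] at h4
            linarith)
        have h6 : (fun (n : ℕ) (x : ℝ) => deriv (fun x : ℝ => x) x * w i n) = fun n _ => w i n := by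
          funext n x
          simp
        rw [h6] at h5
        exact h5
      have hterm : ∀ t, TermAt (F t) (Df t) x₀ (rt t) δ := by
        rintro (i | l)
        · exact hmul i
        · exact pow_termS (g l) (hg l).1 x₀ δ hδ0 hδ1.le (hδg l) (hx₀ l) (fun j => σ l * (H l j : ℝ))
      have hlead : ∀ t, act t → ∃ o : Option (Fin d), LeadS b E N (Option.elim o 0 β)
          (Option.elim o 0 (fun i => Real.log |P i|)) (F t) (Df t) x₀ (rt t) δ := by
        rintro (i | l) ht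
        · exact ⟨some i, mult_leadS b E N x₀ δ hδ0 (β i) (γ i) (K i) (P i) (hβ i) (hirr i) (hγ0 i) (hγ i) ht
            (w i) (hw i) (hmul i)⟩
        · refine ⟨none, pow_leadS b E N _ _ (g l) (hg l).1 x₀ δ hδ0 hδ1.le (hδg l) (hx₀ l) (fun j => σ l * (H l j : ℝ))
            (fun x hx => hN2 x hx l) (fun x hx h => ?_) (fun x hx h => hN3 x hx l h)⟩
          have h3 : ∑ j : Fin k, σ l * (H l j : ℝ) * g l x ^ (j : ℕ) = σ l * ∑ j : Fin k, (H l j : ℝ) * g l x ^ (j : ℕ) := by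
            rw [mul_sum]
            exact sum_congr rfl fun j _ => by ring
          rw [h3] at h
          exact mul_ne_zero (hσ l) (hN6 x hx l ht) h
      -- the leader
      obtain ⟨t₀, ht₀, hmax⟩ := A.exists_max_image rt hAne
      have ht₀' : act t₀ := (mem_filter.1 ht₀).2
      have hlt : ∀ t ∈ A.erase t₀, rt t < rt t₀ := by
        intro t ht
        exact lt_of_le_of_ne (hmax t (mem_of_mem_erase ht)) (fun h => (ne_of_mem_erase ht) (hrtinj h))
      obtain ⟨r', hr'0, hr'1, hr'2⟩ : ∃ r' : ℝ, 0 ≤ r' ∧ r' < rt t₀ ∧ ∀ t ∈ A.erase t₀, rt t ≤ r' := by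
        by_cases hne : (A.erase t₀).Nonempty
        · obtain ⟨t₁, ht₁, hmax₁⟩ := (A.erase t₀).exists_max_image rt hne
          exact ⟨rt t₁, by linarith [hrt1 t₁], hlt t₁ ht₁, hmax₁⟩
        · rw [Finset.not_nonempty_iff_eq_empty] at hne
          exact ⟨0, le_rfl, by linarith [hrt1 t₀], fun t ht => by rw [hne] at ht; exact absurd ht (notMem_empty t)⟩
      have hrest : TermAt (fun n x => ∑ t ∈ A.erase t₀, F t n x) (fun n x => ∑ t ∈ A.erase t₀, Df t n x) x₀ r' δ :=
        TermAt.sum (A.erase t₀) F Df x₀ r' δ fun t ht => (hterm t).mono (by linarith [hrt1 t]) (hr'2 t ht)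
      obtain ⟨o, ho⟩ := hlead t₀ ht₀'
      have htot := ho.add hr'0 hr'1 hrest
      have e1 : (fun (n : ℕ) (x : ℝ) => F t₀ n x + ∑ t ∈ A.erase t₀, F t n x) = fun n x => ∑ t ∈ A, F t n x := by
        funext n x
        exact Finset.add_sum_erase A (fun t => F t n x) ht₀
      have e2 : (fun (n : ℕ) (x : ℝ) => Df t₀ n x + ∑ t ∈ A.erase t₀, Df t n x) = fun n x => ∑ t ∈ A, Df t n x := by
        funext n x
        exact Finset.add_sum_erase A (fun t => Df t n x) ht₀
      rw [e1, e2] at htot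
      obtain ⟨u, v, huv, hlc⟩ := htot.lc hS.hb hδ0 (hrt1 t₀)
      exact ⟨u, v, o, huv, hlc⟩)
  filter_upwards [h1] with ω hω hXg
  refine (hω hXg).congr fun M => ?_
  congr 2
  refine Finset.sum_congr rfl fun i _ => ?_
  congr 2
  have h3 : ∑ t ∈ A, F t (a i) (XX b T ξ ω) = ∑ t, F t (a i) (XX b T ξ ω) := by
    apply Finset.sum_subset (Finset.subset_univ A)
    intro t _ ht
    have h4 : ¬ act t := fun h => ht (mem_filter.2 ⟨mem_univ _, h⟩)
    rcases t with j | l
    · have h5 : P j = 0 := not_not.1 h4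
      simp [hF, hw0 j h5]
    · have h5 : H l = 0 := not_not.1 h4
      simp [hF, h5]
  rw [h3, Fintype.sum_sum_type]
  rfl

theorem tendsto_of_normS (S : ℕ → ℂ) (h : Tendsto (fun N : ℕ => ‖S N‖ / N) atTop (𝓝 0)) :
    Tendsto (fun N : ℕ => S N / N) atTop (𝓝 0) := by
  rw [tendsto_zero_iff_norm_tendsto_zero]
  refine h.congr fun N => ?_
  rw [norm_div, Complex.norm_natCast]

theorem joint (hS : Sys μ b C T ξ) [IsProbabilityMeasure μ] (hE : Ergodic T μ)
    (hX : ∀ f : (ℕ → ℝ) → ℝ, Measurable f → ¬ (XX b T ξ =ᵐ[μ] fun ω => f (past T ξ ω)))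
    (D : ℕ) (a : ℕ → ℕ) (ha : StrictMono a) (haD : ∀ n, a n ≤ D * (n + 1))
    {d k s : ℕ} (β γ K : Fin d → ℝ) (hinj : Function.Injective β) (hβ : ∀ i, 1 < β i)
    (hirr : ∀ i, Irrational (Real.log (β i) / Real.log b)) (hγ0 : ∀ i, 0 ≤ γ i) (hγ : ∀ i, γ i < β i)
    (ρ : Fin d → Fin k → ℝ) (hρ : ∀ i, LinearIndependent ℚ (ρ i)) (v : Fin d → Fin k → ℕ → ℝ)
    (hv : ∀ i j n, |v i j n - ρ i j * β i ^ n| ≤ K i * γ i ^ n)
    (g : Fin s → ℝ → ℝ) (hg : ∀ l, Differentiable ℝ (g l))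
    (hg' : ∀ l, ∀ M : ℝ, ∃ K δ : ℝ, 0 < δ ∧
      ∀ x y : ℝ, |x| ≤ M → |y| ≤ M → |deriv (g l) x - deriv (g l) y| ≤ K * |x - y| ^ δ)
    (hgz : ∀ l, {x : ℝ | deriv (g l) x = 0}.Countable)
    (hgg : ∀ l m, l ≠ m → {x | g l x = g m x}.Countable) (σ : Fin s → ℝ) (hσ : ∀ l, σ l ≠ 0)
    (c : ℕ → (Fin d × Fin k) ⊕ (Fin s × Fin k) → ℝ) :
    ∀ᵐ ω ∂μ, (∀ l, 1 < g l (XX b T ξ ω)) → ∀ h : (Fin d × Fin k) ⊕ (Fin s × Fin k) → ℤ, h ≠ 0 →
      Tendsto (fun N : ℕ => (∑ n ∈ range N, e (∑ x, h x * (Sum.elim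
        (fun y : Fin d × Fin k => XX b T ξ ω * v y.1 y.2 (a n))
        (fun y : Fin s × Fin k => σ y.1 * g y.1 (XX b T ξ ω) ^ (a n + (y.2 : ℕ))) x + c n x))) / N)
        atTop (𝓝 0) := by
  have h1 : ∀ᵐ ω ∂μ, ∀ h : (Fin d × Fin k) ⊕ (Fin s × Fin k) → ℤ, h ≠ 0 → (∀ l, 1 < g l (XX b T ξ ω)) →
      Tendsto (fun N : ℕ => (∑ n ∈ range N, e (∑ x, h x * (Sum.elim
        (fun y : Fin d × Fin k => XX b T ξ ω * v y.1 y.2 (a n))
        (fun y : Fin s × Fin k => σ y.1 * g y.1 (XX b T ξ ω) ^ (a n + (y.2 : ℕ))) x + c n x))) / N)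
        atTop (𝓝 0) := by
    rw [ae_all_iff]
    intro h
    by_cases hh : h = 0
    · exact Eventually.of_forall fun ω hc => absurd hh hc
    have hPne : ∀ i, (∑ j : Fin k, (h (Sum.inl (i, j)) : ℝ) * ρ i j) = 0 → ∀ j, h (Sum.inl (i, j)) = 0 := by
      intro i h0 j
      have h2 := Fintype.linearIndependent_iff.1 (hρ i) (fun j => ((h (Sum.inl (i, j)) : ℤ) : ℚ)) (by
        rw [← h0]
        refine Finset.sum_congr rfl fun j _ => ?_
        rw [Rat.smul_def]
        push_cast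
        ring) j
      exact_mod_cast h2
    have hPQ : (∃ i, (∑ j : Fin k, (h (Sum.inl (i, j)) : ℝ) * ρ i j) ≠ 0) ∨
        ∃ l, (fun j : Fin k => h (Sum.inr (l, j))) ≠ 0 := by
      obtain ⟨t, ht⟩ := Function.ne_iff.mp hh
      rcases t with ⟨i, j⟩ | ⟨l, j⟩
      · left
        exact ⟨i, fun h0 => ht (hPne i h0 j)⟩
      · right
        exact ⟨l, fun h0 => ht (congrFun h0 j)⟩
    have h2 := joint_weylS hS hE hX D a ha haD (fun n => ∑ x, h x * c n x) β γ
      (fun i => (∑ j : Fin k, |(h (Sum.inl (i, j)) : ℝ)|) * K i) hinj hβ hirr hγ0 hγ g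
      (fun l => ⟨hg l, hg' l⟩) hgz hgg
      (fun i => ∑ j : Fin k, (h (Sum.inl (i, j)) : ℝ) * ρ i j)
      (fun i n => ∑ j : Fin k, (h (Sum.inl (i, j)) : ℝ) * v i j n) (fun i n => by
        have h3 : (∑ j : Fin k, (h (Sum.inl (i, j)) : ℝ) * v i j n) - (∑ j : Fin k, (h (Sum.inl (i, j)) : ℝ) * ρ i j) * β i ^ n =
            ∑ j : Fin k, (h (Sum.inl (i, j)) : ℝ) * (v i j n - ρ i j * β i ^ n) := by
          rw [Finset.sum_mul, ← Finset.sum_sub_distrib]
          refine Finset.sum_congr rfl fun j _ => ?_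
          ring
        rw [h3, mul_assoc, Finset.sum_mul]
        refine (Finset.abs_sum_le_sum_abs _ _).trans (Finset.sum_le_sum fun j _ => ?_)
        rw [abs_mul]
        exact mul_le_mul_of_nonneg_left (hv i j n) (abs_nonneg _)) (fun i h0 n => by
        apply Finset.sum_eq_zero
        intro j _
        rw [hPne i h0 j, Int.cast_zero, zero_mul])
      σ hσ (fun l j => h (Sum.inr (l, j))) hPQ
    filter_upwards [h2] with ω hω _ hX
    apply tendsto_of_normS
    refine (hω hX).congr fun N => ?_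
    congr 2
    refine Finset.sum_congr rfl fun n _ => ?_
    congr 1
    have e1 : ∑ x, (h x : ℝ) * (Sum.elim
        (fun y : Fin d × Fin k => XX b T ξ ω * v y.1 y.2 (a n))
        (fun y : Fin s × Fin k => σ y.1 * g y.1 (XX b T ξ ω) ^ (a n + (y.2 : ℕ))) x + c n x) =
        (∑ x, (h x : ℝ) * (Sum.elim
        (fun y : Fin d × Fin k => XX b T ξ ω * v y.1 y.2 (a n))
        (fun y : Fin s × Fin k => σ y.1 * g y.1 (XX b T ξ ω) ^ (a n + (y.2 : ℕ))) x)) + ∑ x, h x * c n x := by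
      rw [← Finset.sum_add_distrib]
      refine Finset.sum_congr rfl fun x _ => ?_
      ring
    have e2 : ∑ x, (h x : ℝ) * (Sum.elim
        (fun y : Fin d × Fin k => XX b T ξ ω * v y.1 y.2 (a n))
        (fun y : Fin s × Fin k => σ y.1 * g y.1 (XX b T ξ ω) ^ (a n + (y.2 : ℕ))) x) =
        (∑ j, XX b T ξ ω * ∑ i : Fin k, (h (Sum.inl (j, i)) : ℝ) * v j i (a n)) +
          ∑ l, ∑ j : Fin k, σ l * (h (Sum.inr (l, j)) : ℝ) * g l (XX b T ξ ω) ^ (a n + (j : ℕ)) := by
      rw [Fintype.sum_sum_type, Fintype.sum_prod_type, Fintype.sum_prod_type]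
      congr 1
      · refine Finset.sum_congr rfl fun i _ => ?_
        rw [Finset.mul_sum]
        refine Finset.sum_congr rfl fun j _ => ?_
        rw [Sum.elim_inl]
        ring
      · refine Finset.sum_congr rfl fun l _ => ?_
        refine Finset.sum_congr rfl fun j _ => ?_
        rw [Sum.elim_inr]
        ring
    rw [e1, e2]
  filter_upwards [h1] with ω hω hX h hh
  exact hω h hh hX

end Pool.Agent.Helper32.HP
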