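import Pool.Agent.Helper32.HP.Base
import Pool.Agent.Helper46.HQ.Fin

/-!
# HP-B1 (helper46): the law of large numbers

With `n = a i`, `m = ⌊c₀ n⌋`, `k = ⌊log_b |Df n (Xs m)|⌋ - (d + 1) ≥ m` (it is `GG m` measurable) put
`Z_i = e(F n X + c i)`, `Y_i = e(F n (Xs k) + c i) psi(past (T^k ω), Df n (Xs k) / b^k)`.  By `base_G` and the
linearisation `Z_i - Y_i` is orthogonal to `GG k` up to an exponentially small error, and `Z_i` is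
`GG k'` measurable up to `O(b^(k - k'))`.  So `∑ (Z_i - Y_i) = o(N)` almost surely and
`(∑ |Y_i|)^2 ≤ N ∑ |Y_i|^2 ≤ N ∑_(n < a N) SQ (qq d) ω (y_n) + o(N^2)`, `y_n = log_b |Df n X|`.
-/

set_option autoImplicit false

namespace Pool.Agent.Helper32.HP

open Finset MeasureTheory ProbabilityTheory Filter Topology
open Pool.Agent.Helper59.RE (e norm_e e_add e_sub conj_e continuous_e e_zero)

variable {Ω : Type*} [MeasurableSpace Ω] {μ : Measure Ω} {b C : ℝ} {T : Ω ≃ᵐ Ω} {ξ : Ω → ℝ}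

theorem lln (hS : Sys μ b C T ξ) [IsProbabilityMeasure μ] (D : ℕ) (a : ℕ → ℕ) (ha : StrictMono a)
    (haD : ∀ n, a n ≤ D * (n + 1)) (c : ℕ → ℝ) (u v : ℝ) (F Df : ℕ → ℝ → ℝ)
    (hF : ∀ n, Measurable (F n)) (hDf : ∀ n, Measurable (Df n)) (δ K B₂ c₀ : ℝ) (hδ : 0 < δ) (hK : 0 ≤ K)
    (hB : 1 ≤ B₂) (hc₀ : 0 < c₀)
    (hlin : ∀ (n : ℕ) (x y : ℝ), x ∈ Set.Icc u v → y ∈ Set.Icc u v →
      |F n y - F n x - Df n x * (y - x)| ≤ K * B₂ ^ n * |y - x| ^ (1 + δ))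
    (h1 : Real.log B₂ < (1 + δ) * c₀ * Real.log b)
    (hgr : ∀ᵐ ω ∂μ, XX b T ξ ω ∈ Set.Ioo u v → GrL b c₀ B₂ δ Df (XX b T ξ ω)) (d : ℕ) :
    ∀ᵐ ω ∂μ, XX b T ξ ω ∈ Set.Ioo u v → ∀ ε : ℝ, 0 < ε → ∀ᶠ N : ℕ in atTop,
      ‖∑ i ∈ range N, e (F (a i) (XX b T ξ ω) + c i)‖ ^ 2 ≤
        N * (∑ n ∈ range (a N), SQ T (qq μ b C T ξ d) ω (Real.log |Df n (XX b T ξ ω)| / Real.log b)) +
          ε * (N : ℝ) ^ 2 :=
  Pool.Agent.Helper46.HQ.lln_main hS a ha c u v F Df hF hDf δ K B₂ c₀ hδ hK hB hc₀ hlin h1 hgr d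

end Pool.Agent.Helper32.HP
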