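import Pool.Agent.Helper32.HP.Weyl
import Pool.Agent.Helper46.TK.Term

/-!
# HP-B7a (helper32): leading terms and the passage from local to global
-/

set_option autoImplicit false

namespace Pool.Agent.Helper32.HP

open Finset MeasureTheory ProbabilityTheory Filter Topology
open Pool.Agent.Helper59.RE (e norm_e e_add e_sub conj_e continuous_e e_zero)
open Pool.Agent.Helper46.TK (TermAt HolAt LHol icc_of_abs mult_term pow_term fiber_countable)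

/-- functions whose slopes grow like `β ^ n` at the points near `x₀` outside of `N` -/
def LeadS (b : ℝ) (E N : Set ℝ) (β₀ s₀ : ℝ) (F Df : ℕ → ℝ → ℝ) (x₀ r δ : ℝ) : Prop :=
  TermAt F Df x₀ r δ ∧ ∀ ε : ℝ, 0 < ε → ∃ η : ℝ, 0 < η ∧ ∀ x : ℝ, |x - x₀| ≤ η → x ∉ N →
    ∃ β : ℝ, 1 < β ∧ r - ε ≤ β ∧ (∀ᶠ n : ℕ in atTop, Df n x ≠ 0) ∧
      ((β = β₀ ∧ Irrational (Real.log β / Real.log b) ∧
          Tendsto (fun n : ℕ => Real.log |Df n x| - (n * Real.log β + s₀)) atTop (𝓝 0)) ∨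
        (Real.log β / Real.log b ∉ E ∧
          Tendsto (fun n : ℕ => Real.log |Df (n + 1) x| - Real.log |Df n x|) atTop (𝓝 (Real.log β))))

/-- the increments -/
theorem inc_of_phase {A : ℕ → ℝ} {l s₀ : ℝ} (h : Tendsto (fun n : ℕ => A n - (n * l + s₀)) atTop (𝓝 0)) :
    Tendsto (fun n : ℕ => A (n + 1) - A n) atTop (𝓝 l) := by
  have h5 := ((h.comp (tendsto_add_atTop_nat 1)).sub h).add_const l
  simp only [sub_zero, zero_add] at h5
  refine h5.congr fun n => ?_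
  simp only [Function.comp_apply]
  push_cast
  ring

/-- adding something smaller does not change the logarithm -/
theorem log_add (A B : ℕ → ℝ) (β ρ K : ℝ) (hβ : 1 < β) (hρ0 : 0 ≤ ρ) (hρ : ρ < β)
    (hA : ∀ᶠ n : ℕ in atTop, A n ≠ 0)
    (hinc : Tendsto (fun n : ℕ => Real.log |A (n + 1)| - Real.log |A n|) atTop (𝓝 (Real.log β)))
    (hB : ∀ n, |B n| ≤ K * ρ ^ n) :
    (∀ᶠ n : ℕ in atTop, A n + B n ≠ 0) ∧ Tendsto (fun n : ℕ => Real.log |A n + B n| - Real.log |A n|) atTop (𝓝 0) := by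
  obtain ⟨ρ', hρ'⟩ : ∃ ρ' : ℝ, ρ' = (ρ + β) / 2 := ⟨_, rfl⟩
  have hρ'0 : 0 < ρ' := by rw [hρ']; linarith
  have hρ'1 : ρ < ρ' := by rw [hρ']; linarith
  have hρ'2 : ρ' < β := by rw [hρ']; linarith
  have hl : Real.log ρ' < Real.log β := Real.log_lt_log hρ'0 hρ'2
  have hK0 : 0 ≤ K := by
    have := (abs_nonneg _).trans (hB 0)
    simpa using this
  obtain ⟨n₀, hn₀⟩ := (hA.and (hinc.eventually_const_lt hl)).exists_forall_of_atTop
  have hgrow : ∀ j : ℕ, ρ' ^ j * |A n₀| ≤ |A (n₀ + j)| := by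
    intro j
    induction j with
    | zero => simp
    | succ j ih =>
      obtain ⟨h1, h2⟩ := hn₀ (n₀ + j) (by omega)
      have h3 := (hn₀ (n₀ + j + 1) (by omega)).1
      have h4 : 0 < |A (n₀ + j)| := abs_pos.2 h1
      have h5 : 0 < |A (n₀ + j + 1)| := abs_pos.2 h3
      have h6 : Real.log (ρ' * |A (n₀ + j)|) < Real.log |A (n₀ + j + 1)| := by
        rw [Real.log_mul hρ'0.ne' h4.ne']
        linarith
      have h7 := ((Real.log_lt_log_iff (by positivity) h5).1 h6).le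
      calc ρ' ^ (j + 1) * |A n₀| = ρ' * (ρ' ^ j * |A n₀|) := by ring
        _ ≤ ρ' * |A (n₀ + j)| := by gcongr
        _ ≤ _ := h7
  have hA₀ : 0 < |A n₀| := abs_pos.2 (hn₀ n₀ le_rfl).1
  have hq : Tendsto (fun n : ℕ => B n / A n) atTop (𝓝 0) := by
    have h1 : Tendsto (fun n : ℕ => K * ρ' ^ n₀ / |A n₀| * (ρ / ρ') ^ n) atTop (𝓝 (K * ρ' ^ n₀ / |A n₀| * 0)) :=
      (tendsto_pow_atTop_nhds_zero_of_lt_one (by positivity) ((div_lt_one hρ'0).2 hρ'1)).const_mul _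
    rw [mul_zero] at h1
    refine squeeze_zero_norm' ?_ h1
    filter_upwards [eventually_ge_atTop n₀] with n hn
    obtain ⟨j, rfl⟩ := Nat.exists_eq_add_of_le hn
    have h2 := hgrow j
    have h3 : 0 < ρ' ^ j * |A n₀| := by positivity
    have h4 : 0 < |A (n₀ + j)| := h3.trans_le h2
    rw [Real.norm_eq_abs, abs_div]
    calc |B (n₀ + j)| / |A (n₀ + j)| ≤ (K * ρ ^ (n₀ + j)) / (ρ' ^ j * |A n₀|) := by
          gcongr
          exact hB _
      _ = K * ρ' ^ n₀ / |A n₀| * (ρ / ρ') ^ (n₀ + j) := by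
        rw [div_pow, pow_add ρ' n₀ j]
        field_simp
  have hq1 : Tendsto (fun n : ℕ => 1 + B n / A n) atTop (𝓝 1) := by
    have := hq.const_add 1
    rwa [add_zero] at this
  have hpos : ∀ᶠ n : ℕ in atTop, 0 < 1 + B n / A n := hq1.eventually_const_lt one_pos
  have hfac : ∀ᶠ n : ℕ in atTop, A n + B n = A n * (1 + B n / A n) := by
    filter_upwards [hA] with n hn
    field_simp
  constructor
  · filter_upwards [hA, hpos, hfac] with n h1 h2 h3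
    rw [h3]
    exact mul_ne_zero h1 h2.ne'
  · have h1 : Tendsto (fun n : ℕ => Real.log (1 + B n / A n)) atTop (𝓝 0) := by
      have := (Real.continuousAt_log one_ne_zero).tendsto.comp hq1
      rwa [Real.log_one] at this
    refine h1.congr' ?_
    filter_upwards [hA, hpos, hfac] with n h2 h3 h4
    rw [h4, abs_mul, abs_of_pos h3, Real.log_mul (abs_pos.2 h2).ne' h3.ne']
    ring

/-- adding something smaller -/
theorem LeadS.add {b : ℝ} {E N : Set ℝ} {β₀ s₀ : ℝ} {F Df G Dg : ℕ → ℝ → ℝ} {x₀ r r' δ : ℝ} (hr' : 0 ≤ r')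
    (hrr : r' < r) (hF : LeadS b E N β₀ s₀ F Df x₀ r δ) (hG : TermAt G Dg x₀ r' δ) :
    LeadS b E N β₀ s₀ (fun n x => F n x + G n x) (fun n x => Df n x + Dg n x) x₀ r δ := by
  refine ⟨hF.1.add (hG.mono hr' hrr.le), fun ε hε => ?_⟩
  obtain ⟨ε', hε'⟩ : ∃ ε' : ℝ, ε' = min ε ((r - r') / 3) := ⟨_, rfl⟩
  have hε'0 : 0 < ε' := by rw [hε']; exact lt_min hε (by linarith)
  have hε'1 : ε' ≤ ε := by rw [hε']; exact min_le_left _ _
  have hε'2 : ε' ≤ (r - r') / 3 := by rw [hε']; exact min_le_right _ _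
  obtain ⟨η₁, hη₁, h₁⟩ := hF.2 ε' hε'0
  obtain ⟨η₂, hη₂, K₂, hK₂, h₂⟩ := hG ε' hε'0
  refine ⟨min η₁ η₂, lt_min hη₁ hη₂, fun x hx hxN => ?_⟩
  obtain ⟨β, hβ, hrβ, hne, hg⟩ := h₁ x (hx.trans (min_le_left _ _)) hxN
  have hlt : r' + ε' < β := by linarith
  have hB : ∀ n, |Dg n x| ≤ K₂ * (r' + ε') ^ n := fun n =>
    (h₂ n x x (hx.trans (min_le_right _ _)) (hx.trans (min_le_right _ _))).2
  have hinc : Tendsto (fun n : ℕ => Real.log |Df (n + 1) x| - Real.log |Df n x|) atTop (𝓝 (Real.log β)) := by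
    rcases hg with ⟨-, -, hg⟩ | ⟨-, hg⟩
    · exact inc_of_phase hg
    · exact hg
  obtain ⟨h3, h4⟩ := log_add (fun n => Df n x) (fun n => Dg n x) β (r' + ε') K₂ hβ (by linarith) hlt hne hinc hB
  refine ⟨β, hβ, by linarith, h3, ?_⟩
  rcases hg with ⟨h5, h6, hg⟩ | ⟨h5, hg⟩
  · left
    refine ⟨h5, h6, ?_⟩
    have h7 := hg.add h4
    rw [add_zero] at h7
    refine h7.congr fun n => ?_
    ring
  · right
    refine ⟨h5, ?_⟩
    have h7 := (hg.add (h4.comp (tendsto_add_atTop_nat 1))).sub h4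
    rw [add_zero, sub_zero] at h7
    refine h7.congr fun n => ?_
    simp only [Function.comp_apply]
    ring

/-- the local conditions of the abstract theorem -/
def LCS (b : ℝ) (E N : Set ℝ) (β₀ s₀ : ℝ) (F Df : ℕ → ℝ → ℝ) (u v : ℝ) : Prop :=
  ∃ δ K B₂ c₀ : ℝ, 0 < δ ∧ 0 ≤ K ∧ 1 ≤ B₂ ∧ 0 < c₀ ∧
    (∀ (n : ℕ) (x y : ℝ), x ∈ Set.Icc u v → y ∈ Set.Icc u v →
      |F n y - F n x - Df n x * (y - x)| ≤ K * B₂ ^ n * |y - x| ^ (1 + δ)) ∧
    Real.log B₂ < (1 + δ) * c₀ * Real.log b ∧ ∀ x ∈ Set.Ioo u v, x ∉ N → Gr b c₀ B₂ δ E β₀ s₀ Df x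

theorem LeadS.lc {b : ℝ} (hb : 1 < b) {E N : Set ℝ} {β₀ s₀ : ℝ} {F Df : ℕ → ℝ → ℝ} {x₀ r δ : ℝ} (hδ : 0 < δ)
    (hr : 1 < r) (hF : LeadS b E N β₀ s₀ F Df x₀ r δ) :
    ∃ u v : ℚ, x₀ ∈ Set.Ioo (u : ℝ) v ∧ LCS b E N β₀ s₀ F Df u v := by
  have hlb : 0 < Real.log b := Real.log_pos hb
  have hlr : 0 < Real.log r := Real.log_pos hr
  -- the choice of `ε`
  obtain ⟨ε, hε0, hε1, hε2⟩ : ∃ ε : ℝ, 0 < ε ∧ 1 < r - ε ∧ Real.log (r + ε) < (1 + δ) * Real.log (r - ε) := by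
    have h1 : ContinuousAt (fun t : ℝ => (1 + δ) * Real.log (r - t) - Real.log (r + t)) 0 := by
      apply ContinuousAt.sub
      · apply ContinuousAt.mul continuousAt_const
        apply ContinuousAt.log
        · fun_prop
        · simp
          linarith
      · apply ContinuousAt.log
        · fun_prop
        · simp
          linarith
    have h2 : 0 < (1 + δ) * Real.log (r - 0) - Real.log (r + 0) := by
      rw [sub_zero, add_zero]
      nlinarith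
    have h3 := h1.eventually_const_lt h2
    have h4 : ∀ᶠ t : ℝ in 𝓝 0, t < r - 1 := eventually_lt_nhds (by linarith)
    have h5 : ∀ᶠ t : ℝ in 𝓝[>] (0 : ℝ), 0 < (1 + δ) * Real.log (r - t) - Real.log (r + t) ∧ t < r - 1 ∧ 0 < t :=
      ((h3.and h4).filter_mono nhdsWithin_le_nhds).and self_mem_nhdsWithin |>.mono fun t ht => ⟨ht.1.1, ht.1.2, ht.2⟩
    obtain ⟨t, ht1, ht2, ht3⟩ := h5.exists
    exact ⟨t, ht3, by linarith, by linarith⟩
  obtain ⟨η₁, hη₁, K, hK, h₁⟩ := hF.1 ε hε0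
  obtain ⟨η₂, hη₂, h₂⟩ := hF.2 ε hε0
  obtain ⟨u, hu1, hu2⟩ := exists_rat_btwn (by have := lt_min hη₁ hη₂; linarith : x₀ - min η₁ η₂ < x₀)
  obtain ⟨v, hv1, hv2⟩ := exists_rat_btwn (by have := lt_min hη₁ hη₂; linarith : x₀ < x₀ + min η₁ η₂)
  have hnear : ∀ x : ℝ, x ∈ Set.Icc (u : ℝ) v → |x - x₀| ≤ min η₁ η₂ := by
    intro x hx
    rw [abs_le]
    constructor <;> linarith [hx.1, hx.2]
  refine ⟨u, v, ⟨hu2, hv1⟩, ?_⟩
  obtain ⟨c₀, hc₀⟩ : ∃ c₀ : ℝ, c₀ = (Real.log (r + ε) / (1 + δ) + Real.log (r - ε)) / 2 / Real.log b := ⟨_, rfl⟩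
  have hl1 : 0 < Real.log (r + ε) := Real.log_pos (by linarith)
  have hl2 : 0 < Real.log (r - ε) := Real.log_pos hε1
  have hq : Real.log (r + ε) / (1 + δ) < Real.log (r - ε) := by
    rw [div_lt_iff₀ (by linarith)]
    linarith
  have hq0 : 0 < Real.log (r + ε) / (1 + δ) := by positivity
  have hc₀b : c₀ * Real.log b = (Real.log (r + ε) / (1 + δ) + Real.log (r - ε)) / 2 := by
    rw [hc₀]
    field_simp
  have hc1 : c₀ * Real.log b < Real.log (r - ε) := by rw [hc₀b]; linarith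
  have hc2 : Real.log (r + ε) < (1 + δ) * c₀ * Real.log b := by
    have h1 : Real.log (r + ε) / (1 + δ) < c₀ * Real.log b := by rw [hc₀b]; linarith
    rw [div_lt_iff₀ (by linarith)] at h1
    linarith
  refine ⟨δ, K, r + ε, c₀, hδ, hK, by linarith, by rw [hc₀]; positivity, fun n x y hx hy => ?_, hc2, fun x hx hxN => ?_⟩
  · exact (h₁ n x y ((hnear x hx).trans (min_le_left _ _)) ((hnear y hy).trans (min_le_left _ _))).1
  · obtain ⟨β, hβ, hrβ, hne, hg⟩ :=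
      h₂ x ((hnear x (Set.Ioo_subset_Icc_self hx)).trans (min_le_right _ _)) hxN
    have hlβ : Real.log (r - ε) ≤ Real.log β := Real.log_le_log (by linarith) hrβ
    refine ⟨β, hβ, hc1.trans_le hlβ, ?_, hne, hg⟩
    calc Real.log (r + ε) < (1 + δ) * c₀ * Real.log b := hc2
      _ = c₀ * Real.log b + δ * c₀ * Real.log b := by ring
      _ < Real.log β + δ * c₀ * Real.log b := by linarith

/-- multiples of `x`: the leading term -/
theorem mult_leadS (b : ℝ) (E N : Set ℝ) (x₀ δ : ℝ) (hδ : 0 < δ)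
    (β γ K ρ : ℝ) (hβ : 1 < β) (hirr : Irrational (Real.log β / Real.log b)) (hγ0 : 0 ≤ γ) (hγ : γ < β)
    (hρ : ρ ≠ 0) (w : ℕ → ℝ) (hw : ∀ n, |w n - ρ * β ^ n| ≤ K * γ ^ n)
    (hT : TermAt (fun n x => x * w n) (fun n _ => w n) x₀ β δ) :
    LeadS b E N β (Real.log |ρ|) (fun n x => x * w n) (fun n _ => w n) x₀ β δ := by
  have hβ0 : 0 < β := by linarith
  have hρ0 : 0 < |ρ| := abs_pos.2 hρ
  refine ⟨hT, fun ε hε => ⟨1, one_pos, fun x _ _ => ⟨β, hβ, by linarith, ?_⟩⟩⟩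
  have hA : ∀ n : ℕ, ρ * β ^ n ≠ 0 := fun n => mul_ne_zero hρ (pow_pos hβ0 n).ne'
  have hlogA : ∀ n : ℕ, Real.log |ρ * β ^ n| = n * Real.log β + Real.log |ρ| := by
    intro n
    rw [abs_mul, abs_of_pos (pow_pos hβ0 n), Real.log_mul hρ0.ne' (pow_pos hβ0 n).ne', Real.log_pow]
    ring
  have hinc : Tendsto (fun n : ℕ => Real.log |ρ * β ^ (n + 1)| - Real.log |ρ * β ^ n|) atTop (𝓝 (Real.log β)) := by
    refine tendsto_const_nhds.congr fun n => ?_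
    rw [hlogA, hlogA]
    push_cast
    ring
  obtain ⟨h1, h2⟩ := log_add (fun n => ρ * β ^ n) (fun n => w n - ρ * β ^ n) β γ K hβ hγ0 hγ
    (Eventually.of_forall hA) hinc hw
  constructor
  · filter_upwards [h1] with n hn
    rwa [add_sub_cancel] at hn
  · left
    refine ⟨rfl, hirr, ?_⟩
    refine h2.congr fun n => ?_
    rw [add_sub_cancel, hlogA]

/-- the terms with a shifted index -/
theorem TermAt.shift {F Df : ℕ → ℝ → ℝ} {x₀ r δ : ℝ} (hr : 0 ≤ r) (hF : TermAt F Df x₀ r δ) (j : ℕ) :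
    TermAt (fun n x => F (n + j) x) (fun n x => Df (n + j) x) x₀ r δ := by
  intro ε hε
  obtain ⟨η₁, hη₁, K₁, hK₁, h₁⟩ := hF ε hε
  refine ⟨η₁, hη₁, K₁ * (r + ε) ^ j, by positivity, fun n x y hx hy => ?_⟩
  obtain ⟨a1, a2⟩ := h₁ (n + j) x y hx hy
  constructor
  · refine a1.trans (le_of_eq ?_)
    rw [pow_add]
    ring
  · refine a2.trans (le_of_eq ?_)
    rw [pow_add]
    ring

/-- powers with polynomial coefficients: the bound -/
theorem pow_termS {k : ℕ} (f : ℝ → ℝ) (hd : Differentiable ℝ f) (x₀ δ : ℝ) (hδ : 0 < δ) (hδ1 : δ ≤ 1) (hf : HolAt f x₀ δ)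
    (hf1 : 1 < f x₀) (q : Fin k → ℝ) :
    TermAt (fun n x => ∑ j : Fin k, q j * f x ^ (n + (j : ℕ)))
      (fun n x => ∑ j : Fin k, q j * (((n + (j : ℕ) : ℕ) : ℝ) * f x ^ (n + (j : ℕ) - 1) * deriv f x)) x₀ (f x₀) δ := by
  apply TermAt.sum (univ : Finset (Fin k)) (fun j n x => q j * f x ^ (n + (j : ℕ)))
    (fun j n x => q j * (((n + (j : ℕ) : ℕ) : ℝ) * f x ^ (n + (j : ℕ) - 1) * deriv f x))
  intro j _
  exact TermAt.shift (by linarith) (pow_term f hd x₀ δ hδ hδ1 hf hf1 (q j)) (j : ℕ)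

/-- powers with polynomial coefficients: the leading term -/
theorem pow_leadS {k : ℕ} (b : ℝ) (E N : Set ℝ) (β₀ s₀ : ℝ) (f : ℝ → ℝ) (hd : Differentiable ℝ f) (x₀ δ : ℝ) (hδ : 0 < δ)
    (hδ1 : δ ≤ 1) (hf : HolAt f x₀ δ) (hf1 : 1 < f x₀) (q : Fin k → ℝ) (hN : ∀ x, x ∉ N → deriv f x ≠ 0)
    (hNq : ∀ x, x ∉ N → ∑ j : Fin k, q j * f x ^ (j : ℕ) ≠ 0)
    (hN' : ∀ x, x ∉ N → 1 < f x → Real.log (f x) / Real.log b ∉ E) :
    LeadS b E N β₀ s₀ (fun n x => ∑ j : Fin k, q j * f x ^ (n + (j : ℕ)))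
      (fun n x => ∑ j : Fin k, q j * (((n + (j : ℕ) : ℕ) : ℝ) * f x ^ (n + (j : ℕ) - 1) * deriv f x)) x₀ (f x₀) δ := by
  refine ⟨pow_termS f hd x₀ δ hδ hδ1 hf hf1 q, fun ε hε => ?_⟩
  have hcont : ContinuousAt f x₀ := hd.continuous.continuousAt
  have hnear : ∀ᶠ x in 𝓝 x₀, 1 < f x ∧ f x₀ - ε < f x :=
    (hcont.eventually_const_lt hf1).and (hcont.eventually_const_lt (by linarith))
  obtain ⟨η, hη, hη'⟩ := Metric.eventually_nhds_iff.1 hnear
  refine ⟨η / 2, by linarith, fun x hx hxN => ?_⟩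
  obtain ⟨hfx, hfx2⟩ := hη' (show dist x x₀ < η by rw [Real.dist_eq]; linarith)
  have hf0 : 0 < |deriv f x| := abs_pos.2 (hN x hxN)
  have hf00 : 0 < f x := by linarith
  set A : ℝ := ∑ j : Fin k, q j * f x ^ (j : ℕ) with hA
  have hA0 : A ≠ 0 := hNq x hxN
  set B : ℝ := ∑ j : Fin k, q j * ((j : ℕ) : ℝ) * f x ^ (j : ℕ) with hB
  -- the slopes
  have hslope : ∀ n : ℕ, 1 ≤ n → ∑ j : Fin k, q j * (((n + (j : ℕ) : ℕ) : ℝ) * f x ^ (n + (j : ℕ) - 1) * deriv f x) =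
      deriv f x * f x ^ (n - 1) * (n * (A + B / n)) := by
    intro n hn
    have hn0 : (n : ℝ) ≠ 0 := by
      have : n ≠ 0 := by omega
      exact_mod_cast this
    have h1 : (n : ℝ) * (A + B / n) = n * A + B := by
      field_simp
    rw [h1, hA, hB, mul_sum, ← sum_add_distrib, mul_sum]
    refine sum_congr rfl fun j _ => ?_
    have h2 : n + (j : ℕ) - 1 = (n - 1) + (j : ℕ) := by omega
    rw [h2, pow_add]
    push_cast
    ring
  have hlim : Tendsto (fun n : ℕ => A + B / n) atTop (𝓝 A) := by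
    have := (tendsto_const_div_atTop_nhds_zero_nat B).const_add A
    rwa [add_zero] at this
  have hne : ∀ᶠ n : ℕ in atTop, A + B / n ≠ 0 := hlim.eventually_ne hA0
  have hlog : ∀ n : ℕ, 1 ≤ n → A + B / n ≠ 0 →
      Real.log |∑ j : Fin k, q j * (((n + (j : ℕ) : ℕ) : ℝ) * f x ^ (n + (j : ℕ) - 1) * deriv f x)| =
        Real.log |deriv f x| + ((n : ℝ) - 1) * Real.log (f x) + Real.log n + Real.log |A + B / n| := by
    intro n hn hn'
    have hn0 : (0 : ℝ) < n := by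
      have : 0 < n := by omega
      exact_mod_cast this
    rw [hslope n hn, abs_mul, abs_mul, abs_mul, abs_of_pos (pow_pos hf00 _), abs_of_pos hn0,
      Real.log_mul (by positivity) (by positivity), Real.log_mul hf0.ne' (by positivity),
      Real.log_mul hn0.ne' (abs_pos.2 hn').ne', Real.log_pow]
    rw [Nat.cast_sub hn]
    push_cast
    ring
  refine ⟨f x, hfx, hfx2.le, ?_, Or.inr ⟨hN' x hxN hfx, ?_⟩⟩
  · filter_upwards [hne, eventually_ge_atTop 1] with n h1 h2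
    rw [hslope n h2]
    have hn0 : (0 : ℝ) < n := by
      have : 0 < n := by omega
      exact_mod_cast this
    exact mul_ne_zero (mul_ne_zero (hN x hxN) (pow_pos hf00 _).ne') (mul_ne_zero hn0.ne' h1)
  · have hlA : Tendsto (fun n : ℕ => Real.log |A + B / n|) atTop (𝓝 (Real.log |A|)) :=
      (Real.continuousAt_log (abs_pos.2 hA0).ne').tendsto.comp (hlim.abs)
    have hl1 : Tendsto (fun n : ℕ => Real.log ((n : ℝ) + 1) - Real.log n) atTop (𝓝 0) := Real.tendsto_log_nat_add_one_sub_log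
    have hfin : Tendsto (fun n : ℕ => Real.log (f x) + (Real.log ((n : ℝ) + 1) - Real.log n) +
        (Real.log |A + B / ((n + 1 : ℕ) : ℝ)| - Real.log |A + B / n|)) atTop (𝓝 (Real.log (f x) + 0 + (Real.log |A| - Real.log |A|))) :=
      (tendsto_const_nhds.add hl1).add ((hlA.comp (tendsto_add_atTop_nat 1)).sub hlA)
    rw [add_zero, sub_self, add_zero] at hfin
    refine hfin.congr' ?_
    have hne' : ∀ᶠ n : ℕ in atTop, A + B / ((n + 1 : ℕ) : ℝ) ≠ 0 := (tendsto_add_atTop_nat 1).eventually hne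
    filter_upwards [hne, hne', eventually_ge_atTop 1] with n h1 h2 h3
    rw [hlog n h3 h1, hlog (n + 1) (by omega) h2]
    push_cast
    ring

/-- from local to global -/
theorem globalizeS {Ω : Type*} [MeasurableSpace Ω] {μ : Measure Ω} {b : ℝ} {T : Ω ≃ᵐ Ω} {ξ : Ω → ℝ}
    [IsProbabilityMeasure μ] (hna : ∀ x : ℝ, ∀ᵐ ω ∂μ, XX b T ξ ω ≠ x) (E : Set ℝ) (a : ℕ → ℕ) (c : ℕ → ℝ)
    (hW : ∀ (u v : ℝ) (F Df : ℕ → ℝ → ℝ), (∀ n, Measurable (F n)) → (∀ n, Measurable (Df n)) →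
      ∀ δ K B₂ c₀ β₀ s₀ : ℝ, 0 < δ → 0 ≤ K → 1 ≤ B₂ → 0 < c₀ →
        (∀ (n : ℕ) (x y : ℝ), x ∈ Set.Icc u v → y ∈ Set.Icc u v →
          |F n y - F n x - Df n x * (y - x)| ≤ K * B₂ ^ n * |y - x| ^ (1 + δ)) →
        Real.log B₂ < (1 + δ) * c₀ * Real.log b →
        (∀ᵐ ω ∂μ, XX b T ξ ω ∈ Set.Ioo u v → Gr b c₀ B₂ δ E β₀ s₀ Df (XX b T ξ ω)) →
        ∀ᵐ ω ∂μ, XX b T ξ ω ∈ Set.Ioo u v →
          Tendsto (fun N : ℕ => ‖∑ i ∈ range N, e (F (a i) (XX b T ξ ω) + c i)‖ / N) atTop (𝓝 0))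
    (F Df : ℕ → ℝ → ℝ) (hF : ∀ n, Measurable (F n)) (hDf : ∀ n, Measurable (Df n)) (N P : Set ℝ) (hN : N.Countable)
    {ι : Type} [Countable ι] (β₀ s₀ : ι → ℝ)
    (h : ∀ x ∈ P, x ∉ N → ∃ u v : ℚ, ∃ i : ι, x ∈ Set.Ioo (u : ℝ) v ∧ LCS b E N (β₀ i) (s₀ i) F Df u v) :
    ∀ᵐ ω ∂μ, XX b T ξ ω ∈ P →
      Tendsto (fun N : ℕ => ‖∑ i ∈ range N, e (F (a i) (XX b T ξ ω) + c i)‖ / N) atTop (𝓝 0) := by
  have havoid : ∀ᵐ ω ∂μ, XX b T ξ ω ∉ N := by
    have h1 : ∀ᵐ ω ∂μ, ∀ x ∈ N, XX b T ξ ω ≠ x := (ae_ball_iff hN).2 fun x _ => hna x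
    filter_upwards [h1] with ω hω hx
    exact hω _ hx rfl
  have h1 : ∀ᵐ ω ∂μ, ∀ (u v : ℚ) (i : ι), LCS b E N (β₀ i) (s₀ i) F Df u v → XX b T ξ ω ∈ Set.Ioo (u : ℝ) v →
      Tendsto (fun N : ℕ => ‖∑ i ∈ range N, e (F (a i) (XX b T ξ ω) + c i)‖ / N) atTop (𝓝 0) := by
    rw [ae_all_iff]
    intro u
    rw [ae_all_iff]
    intro v
    rw [ae_all_iff]
    intro i
    by_cases hLC : LCS b E N (β₀ i) (s₀ i) F Df u v
    · obtain ⟨δ, K, B₂, c₀, hδ, hK, hB, hc₀, hlin, h1, hgr⟩ := hLC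
      have h2 := hW u v F Df hF hDf δ K B₂ c₀ (β₀ i) (s₀ i) hδ hK hB hc₀ hlin h1 (by
          filter_upwards [havoid] with ω hω hX
          exact hgr _ hX hω)
      filter_upwards [h2] with ω hω _ hX
      exact hω hX
    · exact Eventually.of_forall fun ω h => absurd h hLC
  filter_upwards [h1, havoid] with ω hω hωN hP
  obtain ⟨u, v, i, huv, hLC⟩ := h _ hP hωN
  exact hω u v i hLC huv

end Pool.Agent.Helper32.HP
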