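import Pool.Agent.Helper32.HP.Base
import Pool.Agent.Helper82.HP.Wiener
import Pool.Agent.Helper82.HP.Past

/-!
# HP-B4 (helper82): Wiener's lemma

`‖psi p t‖^2 = ∫∫ e(t (cl x - cl y)) dκ dκ`; the integral over `t = b^(m+u)`, `0 ≤ u ≤ 3`, tends to
`3 (κ × κ){cl x = cl y}`, which is zero for a.e. past, since `κ` has no atoms and lives on `[-BB, BB]`; dominated
convergence in `ω`.
-/

set_option autoImplicit false

namespace Pool.Agent.Helper32.HP

open Finset MeasureTheory ProbabilityTheory Filter Topology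
open Pool.Agent.Helper59.RE (e norm_e)

variable {Ω : Type*} [MeasurableSpace Ω] {μ : Measure Ω} {b C : ℝ} {T : Ω ≃ᵐ Ω} {ξ : Ω → ℝ}

theorem hk_kap (hS : Sys μ b C T ξ) [IsProbabilityMeasure μ] :
    (μ.map (past T ξ)) ⊗ₘ kap μ b T ξ = μ.map (fun ω => (past T ξ ω, XX b T ξ ω)) :=
  compProd_map_condDistrib (mβ := MeasurableSpace.pi) (measurable_XX hS).aemeasurable

/-- the conditional laws live on `[-BB, BB]` -/
theorem kap_supp (hS : Sys μ b C T ξ) [IsProbabilityMeasure μ] :
    ∀ᵐ ω ∂μ, kap μ b T ξ (past T ξ ω) {y | BB b C < |y|} = 0 := by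
  have hms : MeasurableSet {y : ℝ | BB b C < |y|} := measurableSet_lt measurable_const (by fun_prop)
  have hgm : Measurable fun z : (ℕ → ℝ) × ℝ => {y : ℝ | BB b C < |y|}.indicator (fun _ => (1 : ℝ)) z.2 :=
    (measurable_const.indicator hms).comp measurable_snd
  have hg1 : ∀ z : (ℕ → ℝ) × ℝ, |{y : ℝ | BB b C < |y|}.indicator (fun _ => (1 : ℝ)) z.2| ≤ 1 := fun z => by
    simp only [Set.indicator]
    split_ifs <;> simp
  have h1 : ∫ ω, ∫ y, ({y : ℝ | BB b C < |y|}.indicator (fun _ => (1 : ℝ)) y) ∂(kap μ b T ξ (past T ξ ω)) ∂μ = 0 := by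
    have h2 := Pool.Agent.Helper82.HP.int_key (measurable_past hS) (measurable_XX hS) (hk_kap hS) hgm hg1
    rw [h2]
    rw [← integral_zero Ω ℝ (μ := μ)]
    refine integral_congr_ae (Eventually.of_forall fun ω => ?_)
    simp only [Set.indicator]
    rw [if_neg]
    exact not_lt.2 (XX_abs hS ω)
  have h2 : ∀ ω, 0 ≤ ∫ y, ({y : ℝ | BB b C < |y|}.indicator (fun _ => (1 : ℝ)) y) ∂(kap μ b T ξ (past T ξ ω)) := fun ω =>
    integral_nonneg fun y => Set.indicator_nonneg (fun _ _ => zero_le_one) _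
  have h3 := (integral_eq_zero_iff_of_nonneg h2 (Pool.Agent.Helper82.HP.integrable_inner (measurable_past hS) (kap μ b T ξ)
    hgm hg1)).1 h1
  filter_upwards [h3] with ω hω
  have h4 : ∫ y, ({y : ℝ | BB b C < |y|}.indicator (fun _ => (1 : ℝ)) y) ∂(kap μ b T ξ (past T ξ ω)) = 0 := hω
  rw [integral_indicator_const _ hms, smul_eq_mul, mul_one, measureReal_def, ENNReal.toReal_eq_zero_iff] at h4
  exact h4.resolve_right (measure_ne_top _ _)

/-- the truncated law has no atoms -/
theorem cl_noatoms {κ : Measure ℝ} {B : ℝ} (hκ : ∀ x, κ {x} = 0) (hs : κ {y | B < |y|} = 0) (x : ℝ) :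
    κ.map (cl B) {x} = 0 := by
  rw [Measure.map_apply (continuous_cl B).measurable (measurableSet_singleton x)]
  refine measure_mono_null (t := {x} ∪ {y | B < |y|}) ?_ (measure_union_null (hκ x) hs)
  intro y hy
  by_cases h : B < |y|
  · exact Or.inr h
  · left
    have h1 : cl B y = x := hy
    rw [cl_eq (not_lt.1 h)] at h1
    exact h1

theorem qq_int_le (hS : Sys μ b C T ξ) [IsProbabilityMeasure μ] (m : ℕ) (ω : Ω) :
    (∫ y in (0 : ℝ)..(m + 3), qq μ b C T ξ m ω y) ≤
      ∫ u in (0 : ℝ)..3, ‖∫ x, e (b ^ (m : ℕ) * b ^ u * x) ∂((kap μ b T ξ (past T ξ ω)).map (cl (BB b C)))‖ ^ 2 := by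
  have hb0 : 0 < b := zero_lt_one.trans hS.hb
  have hpsi : ∀ t, psi μ b C T ξ (past T ξ ω) t = ∫ x, e (t * x) ∂((kap μ b T ξ (past T ξ ω)).map (cl (BB b C))) := by
    intro t
    rw [integral_map (continuous_cl _).aemeasurable]
    · rfl
    · exact (Pool.Agent.Helper59.RE.continuous_e.comp (continuous_const.mul continuous_id)).aestronglyMeasurable
  have hq := qq_isQ hS m
  have hcont : Continuous (qq μ b C T ξ m ω) := by
    refine continuous_iff_continuousAt.2 fun y => ?_
    set L : ℝ := 1 + 4 * Real.pi * BB b C * b ^ (m + 3) * Real.log b with hL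
    have h1 : Tendsto (fun y' => L * |y' - y|) (𝓝 y) (𝓝 0) := by
      have : Continuous fun y' : ℝ => L * |y' - y| := by fun_prop
      have h2 := this.tendsto y
      simpa using h2
    rw [ContinuousAt, tendsto_iff_norm_sub_tendsto_zero]
    refine squeeze_zero (fun _ => norm_nonneg _) (fun y' => ?_) h1
    rw [Real.norm_eq_abs]
    exact hq.l ω y' y
  have hint : ∀ u v : ℝ, IntervalIntegrable (qq μ b C T ξ m ω) volume u v := fun u v => hcont.intervalIntegrable _ _
  have h1 : (∫ y in (0 : ℝ)..(m + 3), qq μ b C T ξ m ω y) = ∫ y in (m : ℝ)..(m + 3), qq μ b C T ξ m ω y := by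
    rw [← intervalIntegral.integral_add_adjacent_intervals (hint 0 m) (hint m (m + 3))]
    have h2 : ∫ y in (0 : ℝ)..m, qq μ b C T ξ m ω y = ∫ y in (0 : ℝ)..m, (0 : ℝ) := by
      refine intervalIntegral.integral_congr fun y hy => ?_
      rw [Set.uIcc_of_le (Nat.cast_nonneg m)] at hy
      unfold qq
      rw [wt_zero (Or.inl (by linarith [hy.2])), zero_mul]
    rw [h2, intervalIntegral.integral_zero, zero_add]
  rw [h1]
  have h2 : (∫ y in (m : ℝ)..(m + 3), qq μ b C T ξ m ω y) = ∫ u in (0 : ℝ)..3, qq μ b C T ξ m ω (u + m) := by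
    rw [intervalIntegral.integral_comp_add_right (fun y => qq μ b C T ξ m ω y)]
    congr 1
    · ring
    · ring
  rw [h2]
  have hc1 : Continuous fun u : ℝ => b ^ u := Real.continuous_const_rpow hb0.ne'
  have hpc : Continuous (psi μ b C T ξ (past T ξ ω)) := by
    refine continuous_iff_continuousAt.2 fun y => ?_
    set L : ℝ := 2 * Real.pi * BB b C with hL
    have h1 : Tendsto (fun y' => L * |y' - y|) (𝓝 y) (𝓝 0) := by
      have : Continuous fun y' : ℝ => L * |y' - y| := by fun_prop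
      have h2 := this.tendsto y
      simpa using h2
    rw [ContinuousAt, tendsto_iff_norm_sub_tendsto_zero]
    exact squeeze_zero (fun _ => norm_nonneg _) (fun y' => psi_lip hS _ y' y) h1
  refine intervalIntegral.integral_mono_on (by norm_num) ?_ ?_ fun u _ => ?_
  · exact (hcont.comp (continuous_id.add continuous_const)).intervalIntegrable _ _
  · apply Continuous.intervalIntegrable
    simp_rw [← hpsi]
    have h3 : Continuous fun u : ℝ => b ^ (m : ℕ) * b ^ u := continuous_const.mul hc1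
    exact (hpc.comp h3).norm.pow 2
  · have h3 : b ^ (u + m) = b ^ (m : ℕ) * b ^ u := by
      rw [Real.rpow_add hb0, Real.rpow_natCast, mul_comm]
    unfold qq
    rw [← hpsi, h3]
    calc wt (u + m - (m + 1)) * ‖psi μ b C T ξ (past T ξ ω) (b ^ m * b ^ u)‖ ^ 2 ≤
        1 * ‖psi μ b C T ξ (past T ξ ω) (b ^ m * b ^ u)‖ ^ 2 := by
          gcongr
          exact wt_le _
      _ = _ := one_mul _

theorem JJ_tendsto (hS : Sys μ b C T ξ) [IsProbabilityMeasure μ]
    (hna : ∀ᵐ ω ∂μ, ∀ x : ℝ, kap μ b T ξ (past T ξ ω) {x} = 0) :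
    Tendsto (fun m : ℕ => JJ μ (qq μ b C T ξ m) (m + 3)) atTop (𝓝 0) := by
  have hb0 : 0 < b := zero_lt_one.trans hS.hb
  have hpow : Tendsto (fun m : ℕ => b ^ m) atTop atTop := tendsto_pow_atTop_atTop_of_one_lt hS.hb
  unfold JJ
  have hW : ∀ (m : ℕ) (ω : Ω), (∫ u in (0 : ℝ)..3,
      ‖∫ x, e (b ^ (m : ℕ) * b ^ u * x) ∂((kap μ b T ξ (past T ξ ω)).map (cl (BB b C)))‖ ^ 2) ≤ 3 := by
    intro m ω
    have hp : IsProbabilityMeasure ((kap μ b T ξ (past T ξ ω)).map (cl (BB b C))) :=
      Measure.isProbabilityMeasure_map (continuous_cl _).aemeasurable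
    have h1 := intervalIntegral.norm_integral_le_of_norm_le_const (a := (0 : ℝ)) (b := 3)
      (f := fun u : ℝ => ‖∫ x, e (b ^ (m : ℕ) * b ^ u * x) ∂((kap μ b T ξ (past T ξ ω)).map (cl (BB b C)))‖ ^ 2) (C := 1)
      (fun u _ => by
        rw [Real.norm_eq_abs, abs_of_nonneg (by positivity)]
        apply pow_le_one₀ (norm_nonneg _)
        refine (norm_integral_le_of_norm_le_const (C := 1) (Eventually.of_forall fun x => (norm_e _).le)).trans ?_
        simp)
    refine (le_abs_self _).trans (h1.trans ?_)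
    norm_num
  have hnn : ∀ (m : ℕ) (ω : Ω), 0 ≤ ∫ y in (0 : ℝ)..(m + 3), qq μ b C T ξ m ω y := fun m ω =>
    intervalIntegral.integral_nonneg (by positivity) fun y _ => (qq_isQ hS m).nn ω y
  have hlim : Tendsto (fun m : ℕ => ∫ ω, (∫ y in (0 : ℝ)..(m + 3), qq μ b C T ξ m ω y) ∂μ) atTop (𝓝 (∫ ω, (0 : ℝ) ∂μ)) := by
    refine tendsto_integral_of_dominated_convergence (fun _ => (3 : ℝ)) (fun m => ?_) (integrable_const _) (fun m => ?_) ?_
    · have hm : Measurable fun z : Ω × ℝ => qq μ b C T ξ m z.1 z.2 := by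
        unfold qq
        have h1 : Measurable fun z : Ω × ℝ => psi μ b C T ξ (past T ξ z.1) (b ^ z.2) := by
          have hc1 : Continuous fun u : ℝ => b ^ u := Real.continuous_const_rpow hb0.ne'
          exact psi_meas.comp (((measurable_past hS).comp measurable_fst).prodMk (hc1.measurable.comp measurable_snd))
        have h2 : Measurable fun z : Ω × ℝ => wt (z.2 - (m + 1)) := by
          unfold wt
          fun_prop
        exact h2.mul (h1.norm.pow_const 2)
      have h3 : StronglyMeasurable fun ω => ∫ y in Set.Ioc (0 : ℝ) (m + 3), qq μ b C T ξ m ω y :=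
        hm.stronglyMeasurable.integral_prod_right'
      have h4 : (fun ω => ∫ y in (0 : ℝ)..(m + 3), qq μ b C T ξ m ω y) = fun ω => ∫ y in Set.Ioc (0 : ℝ) (m + 3), qq μ b C T ξ m ω y := by
        ext ω
        rw [intervalIntegral.integral_of_le (by positivity)]
      rw [h4]
      exact h3.aestronglyMeasurable
    · refine Eventually.of_forall fun ω => ?_
      rw [Real.norm_eq_abs, abs_of_nonneg (hnn m ω)]
      exact (qq_int_le hS m ω).trans (hW m ω)
    · filter_upwards [hna, kap_supp hS] with ω h1 h2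
      have hp : IsProbabilityMeasure ((kap μ b T ξ (past T ξ ω)).map (cl (BB b C))) :=
        Measure.isProbabilityMeasure_map (continuous_cl _).aemeasurable
      have h3 := Pool.Agent.Helper82.HP.wiener (cl_noatoms h1 h2) hS.hb hpow
      exact squeeze_zero (fun m => hnn m ω) (fun m => qq_int_le hS m ω) h3
  rwa [integral_zero] at hlim

/-- the law of `X` has no atoms -/
theorem XX_ne (hS : Sys μ b C T ξ) [IsProbabilityMeasure μ]
    (hna : ∀ᵐ ω ∂μ, ∀ x : ℝ, kap μ b T ξ (past T ξ ω) {x} = 0) (x : ℝ) : ∀ᵐ ω ∂μ, XX b T ξ ω ≠ x := by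
  have hgm : Measurable fun z : (ℕ → ℝ) × ℝ => ({x} : Set ℝ).indicator (fun _ => (1 : ℝ)) z.2 :=
    (measurable_const.indicator (measurableSet_singleton x)).comp measurable_snd
  have hg1 : ∀ z : (ℕ → ℝ) × ℝ, |({x} : Set ℝ).indicator (fun _ => (1 : ℝ)) z.2| ≤ 1 := fun z => by
    simp only [Set.indicator]
    split_ifs <;> simp
  have h2 := Pool.Agent.Helper82.HP.int_key (measurable_past hS) (measurable_XX hS) (hk_kap hS) hgm hg1
  have h3 : ∫ ω, ∫ y, (({x} : Set ℝ).indicator (fun _ => (1 : ℝ)) y) ∂(kap μ b T ξ (past T ξ ω)) ∂μ = 0 := by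
    rw [← integral_zero Ω ℝ (μ := μ)]
    refine integral_congr_ae ?_
    filter_upwards [hna] with ω hω
    rw [integral_indicator_const _ (measurableSet_singleton x), smul_eq_mul, mul_one, measureReal_def, hω x, ENNReal.toReal_zero]
  simp only at h2
  rw [h3] at h2
  have h4 : ∀ ω, 0 ≤ ({x} : Set ℝ).indicator (fun _ => (1 : ℝ)) (XX b T ξ ω) := fun ω =>
    Set.indicator_nonneg (fun _ _ => zero_le_one) _
  have hint : Integrable (fun ω => ({x} : Set ℝ).indicator (fun _ => (1 : ℝ)) (XX b T ξ ω)) μ := by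
    refine Integrable.mono' (g := fun _ => (1 : ℝ)) (integrable_const _)
      ((measurable_const.indicator (measurableSet_singleton x)).comp (measurable_XX hS)).aestronglyMeasurable
      (Eventually.of_forall fun ω => ?_)
    rw [Real.norm_eq_abs]
    simp only [Set.indicator]
    split_ifs <;> simp
  have h5 := (integral_eq_zero_iff_of_nonneg h4 hint).1 h2.symm
  filter_upwards [h5] with ω hω hx
  have h6 : ({x} : Set ℝ).indicator (fun _ => (1 : ℝ)) (XX b T ξ ω) = 0 := hω
  rw [hx] at h6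
  simp at h6

end Pool.Agent.Helper32.HP
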