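import Pool.Agent.Helper32.HP.LLN
import Pool.Agent.Helper32.HP.Fix
import Pool.Agent.Helper32.HP.Free
import Pool.Agent.Helper32.HP.Wien
import Pool.Agent.Helper32.HP.Atom

/-!
# HP-B6 (helper32): Weyl sums
-/

set_option autoImplicit false

namespace Pool.Agent.Helper32.HP

open Finset MeasureTheory ProbabilityTheory Filter Topology
open Pool.Agent.Helper59.RE (e norm_e e_add e_sub conj_e continuous_e e_zero)

variable {Ω : Type*} [MeasurableSpace Ω] {μ : Measure Ω} {b C : ℝ} {T : Ω ≃ᵐ Ω} {ξ : Ω → ℝ}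

theorem grL_of_gr {b c₀ B₂ δ : ℝ} {E : Set ℝ} {β₀ s₀ : ℝ} {Df : ℕ → ℝ → ℝ} {x : ℝ}
    (h : Gr b c₀ B₂ δ E β₀ s₀ Df x) : GrL b c₀ B₂ δ Df x := by
  obtain ⟨β, hβ, h1, h2, h3, h4⟩ := h
  refine ⟨β, hβ, h1, h2, h3, ?_⟩
  rcases h4 with ⟨-, -, h4⟩ | ⟨-, h4⟩
  · have h5 := ((h4.comp (tendsto_add_atTop_nat 1)).sub h4).add_const (Real.log β)
    simp only [sub_zero, zero_add] at h5
    refine h5.congr fun n => ?_
    simp only [Function.comp_apply]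
    push_cast
    ring
  · exact h4

private theorem final32 (D : ℕ) (a : ℕ → ℕ) (ha : StrictMono a) (haD : ∀ n, a n ≤ D * (n + 1)) (S : ℕ → ℝ)
    (hS0 : ∀ N, 0 ≤ S N) (q : ℕ → ℕ → ℝ)
    (h1 : ∀ m : ℕ, ∀ ε : ℝ, 0 < ε → ∀ᶠ N : ℕ in atTop, S N ^ 2 ≤ N * (∑ n ∈ range (a N), q m n) + ε * (N : ℝ) ^ 2)
    (h2 : ∀ κ : ℝ, 0 < κ → ∃ m : ℕ, ∀ᶠ M : ℕ in atTop, ∑ n ∈ range M, q m n ≤ M * κ) :
    Tendsto (fun N : ℕ => S N / N) atTop (𝓝 0) := by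
  rw [Metric.tendsto_atTop']
  intro ε hε
  obtain ⟨κ, hκ⟩ : ∃ κ : ℝ, κ = ε ^ 2 / (2 * (2 * (D : ℝ) + 1)) := ⟨_, rfl⟩
  have hD0 : (0 : ℝ) ≤ D := Nat.cast_nonneg _
  have hκ0 : 0 < κ := by rw [hκ]; positivity
  obtain ⟨m, hm⟩ := h2 κ hκ0
  have hta : Tendsto a atTop atTop := ha.tendsto_atTop
  have hev := ((h1 m κ hκ0).and (hta.eventually hm)).and (eventually_ge_atTop 1)
  obtain ⟨N₀, hN₀⟩ := hev.exists_forall_of_atTop
  refine ⟨N₀, fun N hN => ?_⟩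
  obtain ⟨⟨h3, h4⟩, h5⟩ := hN₀ N hN.le
  have hN1 : (1 : ℝ) ≤ N := by exact_mod_cast h5
  have hN0 : (0 : ℝ) < N := by linarith
  have h6 : (a N : ℝ) ≤ D * (N + 1) := by exact_mod_cast haD N
  have h7 : S N ^ 2 ≤ (2 * D + 1) * κ * (N : ℝ) ^ 2 := by
    calc S N ^ 2 ≤ N * (∑ n ∈ range (a N), q m n) + κ * (N : ℝ) ^ 2 := h3
      _ ≤ N * ((a N : ℝ) * κ) + κ * (N : ℝ) ^ 2 := by gcongr
      _ ≤ N * ((D * (N + 1)) * κ) + κ * (N : ℝ) ^ 2 := by gcongr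
      _ ≤ N * ((D * (N + N)) * κ) + κ * (N : ℝ) ^ 2 := by gcongr
      _ = _ := by ring
  have h8 : (2 * D + 1) * κ = ε ^ 2 / 2 := by
    rw [hκ]
    field_simp
  rw [h8] at h7
  rw [Real.dist_eq, sub_zero, abs_of_nonneg (div_nonneg (hS0 N) hN0.le), div_lt_iff₀ hN0]
  apply lt_of_pow_lt_pow_left₀ 2 (by positivity)
  calc S N ^ 2 ≤ ε ^ 2 / 2 * (N : ℝ) ^ 2 := h7
    _ < (ε * N) ^ 2 := by
      rw [mul_pow]
      have : 0 < ε ^ 2 * (N : ℝ) ^ 2 := by positivity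
      linarith

/-- there is a countable set `E` of exceptional rates such that the Weyl sums are small -/
theorem weyl (hS : Sys μ b C T ξ) [IsProbabilityMeasure μ] (hE : Ergodic T μ)
    (hX : ∀ f : (ℕ → ℝ) → ℝ, Measurable f → ¬ (XX b T ξ =ᵐ[μ] fun ω => f (past T ξ ω))) :
    ∃ E : Set ℝ, E.Countable ∧ ∀ (D : ℕ) (a : ℕ → ℕ), StrictMono a → (∀ n, a n ≤ D * (n + 1)) →
      ∀ (c : ℕ → ℝ) (u v : ℝ) (F Df : ℕ → ℝ → ℝ), (∀ n, Measurable (F n)) → (∀ n, Measurable (Df n)) →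
      ∀ δ K B₂ c₀ β₀ s₀ : ℝ, 0 < δ → 0 ≤ K → 1 ≤ B₂ → 0 < c₀ →
        (∀ (n : ℕ) (x y : ℝ), x ∈ Set.Icc u v → y ∈ Set.Icc u v →
          |F n y - F n x - Df n x * (y - x)| ≤ K * B₂ ^ n * |y - x| ^ (1 + δ)) →
        Real.log B₂ < (1 + δ) * c₀ * Real.log b →
        (∀ᵐ ω ∂μ, XX b T ξ ω ∈ Set.Ioo u v → Gr b c₀ B₂ δ E β₀ s₀ Df (XX b T ξ ω)) →
        ∀ᵐ ω ∂μ, XX b T ξ ω ∈ Set.Ioo u v →
          Tendsto (fun N : ℕ => ‖∑ i ∈ range N, e (F (a i) (XX b T ξ ω) + c i)‖ / N) atTop (𝓝 0) := by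
  have hlb : 0 < Real.log b := Real.log_pos hS.hb
  have hna := noAtoms hS hE hX
  have hJ := JJ_tendsto hS hna
  have hfree := fun m : ℕ => free_phase hE (qq_isQ hS m)
  choose E hEc hEf using hfree
  refine ⟨⋃ m, E m, Set.countable_iUnion hEc, ?_⟩
  intro D a ha haD c u v F Df hF hDf δ K B₂ c₀ β₀ s₀ hδ hK hB hc₀ hlin h1 hgr
  -- the law of large numbers at all depths
  have hL : ∀ᵐ ω ∂μ, ∀ m : ℕ, XX b T ξ ω ∈ Set.Ioo u v → ∀ ε : ℝ, 0 < ε → ∀ᶠ N : ℕ in atTop,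
      ‖∑ i ∈ range N, e (F (a i) (XX b T ξ ω) + c i)‖ ^ 2 ≤
        N * (∑ n ∈ range (a N), SQ T (qq μ b C T ξ m) ω (Real.log |Df n (XX b T ξ ω)| / Real.log b)) +
          ε * (N : ℝ) ^ 2 := by
    rw [ae_all_iff]
    intro m
    exact lln hS D a ha haD c u v F Df hF hDf δ K B₂ c₀ hδ hK hB hc₀ hlin h1 (by
      filter_upwards [hgr] with ω hω hX
      exact grL_of_gr (hω hX)) m
  -- the free phases at all depths
  have hFr : ∀ᵐ ω ∂μ, ∀ m : ℕ, ∀ α : ℝ, 0 < α → α ∉ E m → ∀ y : ℕ → ℝ,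
      Tendsto (fun n : ℕ => y (n + 1) - y n) atTop (𝓝 α) →
        ∀ ε : ℝ, 0 < ε → ∀ᶠ N : ℕ in atTop, ∑ n ∈ range N, SQ T (qq μ b C T ξ m) ω (y n) ≤
          N * (JJ μ (qq μ b C T ξ m) (m + 3) + ε) := by
    rw [ae_all_iff]
    intro m
    exact hEf m
  -- the given phase at all depths
  have hFx : ∀ᵐ ω ∂μ, (1 < β₀ ∧ Irrational (Real.log β₀ / Real.log b)) → ∀ κ : ℝ, 0 < κ → ∃ m : ℕ,
      ∀ y : ℕ → ℝ, Tendsto (fun n : ℕ => y n - (n * (Real.log β₀ / Real.log b) + s₀ / Real.log b)) atTop (𝓝 0) →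
        ∀ᶠ N : ℕ in atTop, ∑ n ∈ range N, SQ T (qq μ b C T ξ m) ω (y n) ≤ N * κ := by
    by_cases hβ : 1 < β₀ ∧ Irrational (Real.log β₀ / Real.log b)
    · have hα : 0 < Real.log β₀ / Real.log b := div_pos (Real.log_pos hβ.1) hlb
      have hfix := fun m : ℕ => fixed_phase hS.hT (qq_isQ hS m) (Real.log β₀ / Real.log b) hα hβ.2 (s₀ / Real.log b)
      choose G hGm hG0 hGM hGi hGf using hfix
      have hsmall : ∀ j : ℕ, ∀ᵐ ω ∂μ, ∃ m : ℕ, G m ω < 1 / ((j : ℝ) + 1) := by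
        intro j
        have hj : (0 : ℝ) < 1 / ((j : ℝ) + 1) := by positivity
        rw [ae_iff]
        have h2 : ∀ m : ℕ, μ.real {ω | ¬ ∃ m : ℕ, G m ω < 1 / ((j : ℝ) + 1)} ≤
            JJ μ (qq μ b C T ξ m) (m + 3) / (1 / ((j : ℝ) + 1)) := by
          intro m
          obtain ⟨M, hM⟩ := hGM m
          have hint : Integrable (G m) μ := by
            refine (integrable_const M).mono' (hGm m).aestronglyMeasurable (Eventually.of_forall fun ω => ?_)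
            rw [Real.norm_eq_abs, abs_of_nonneg (hG0 m ω)]
            exact hM ω
          have h3 := mul_meas_ge_le_integral_of_nonneg (μ := μ) (f := G m) (Eventually.of_forall (hG0 m)) hint
            (1 / ((j : ℝ) + 1))
          rw [le_div_iff₀ hj]
          have h4 : μ.real {ω | ¬ ∃ m : ℕ, G m ω < 1 / ((j : ℝ) + 1)} ≤ μ.real {ω | 1 / ((j : ℝ) + 1) ≤ G m ω} := by
            refine measureReal_mono (fun ω hω => ?_) (measure_ne_top _ _)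
            rw [Set.mem_ofPred_eq] at hω ⊢
            push Not at hω
            exact hω m
          calc μ.real {ω | ¬ ∃ m : ℕ, G m ω < 1 / ((j : ℝ) + 1)} * (1 / ((j : ℝ) + 1)) ≤
                μ.real {ω | 1 / ((j : ℝ) + 1) ≤ G m ω} * (1 / ((j : ℝ) + 1)) := by gcongr
            _ = 1 / ((j : ℝ) + 1) * μ.real {ω | 1 / ((j : ℝ) + 1) ≤ G m ω} := mul_comm _ _
            _ ≤ ∫ ω, G m ω ∂μ := h3
            _ ≤ _ := hGi m
        have h3 : Tendsto (fun m : ℕ => JJ μ (qq μ b C T ξ m) (m + 3) / (1 / ((j : ℝ) + 1))) atTop (𝓝 0) := by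
          have := hJ.div_const (1 / ((j : ℝ) + 1))
          rwa [zero_div] at this
        have h4 : μ.real {ω | ¬ ∃ m : ℕ, G m ω < 1 / ((j : ℝ) + 1)} ≤ 0 := ge_of_tendsto' h3 h2
        have h5 : μ.real {ω | ¬ ∃ m : ℕ, G m ω < 1 / ((j : ℝ) + 1)} = 0 := le_antisymm h4 measureReal_nonneg
        rwa [measureReal_eq_zero_iff] at h5
      have hsmall' : ∀ᵐ ω ∂μ, ∀ j : ℕ, ∃ m : ℕ, G m ω < 1 / ((j : ℝ) + 1) := ae_all_iff.2 hsmall
      have hGf' := ae_all_iff.2 hGf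
      filter_upwards [hsmall', hGf'] with ω hω1 hω2 _ κ hκ
      obtain ⟨j, hj⟩ := exists_nat_one_div_lt (half_pos hκ)
      obtain ⟨m, hm⟩ := hω1 j
      refine ⟨m, fun y hy => ?_⟩
      filter_upwards [hω2 m y hy (κ / 2) (half_pos hκ)] with N hN
      refine hN.trans ?_
      have : G m ω + κ / 2 ≤ κ := by linarith
      gcongr
    · exact Eventually.of_forall fun ω h => absurd h hβ
  filter_upwards [hL, hFr, hFx, hgr] with ω h2 h3 h4 h5 hXuv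
  obtain ⟨β, hβ1, hβ2, hβ3, hβ4, hβ5⟩ := h5 hXuv
  have hlβ : 0 < Real.log β := Real.log_pos hβ1
  refine final32 D a ha haD (fun N => ‖∑ i ∈ range N, e (F (a i) (XX b T ξ ω) + c i)‖) (fun N => norm_nonneg _)
    (fun m n => SQ T (qq μ b C T ξ m) ω (Real.log |Df n (XX b T ξ ω)| / Real.log b)) (fun m => h2 m hXuv) ?_
  intro κ hκ
  rcases hβ5 with ⟨rfl, hirr, hβ5⟩ | ⟨hβE, hβ5⟩
  · obtain ⟨m, hm⟩ := h4 ⟨hβ1, hirr⟩ κ hκ
    refine ⟨m, hm _ ?_⟩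
    have h6 := hβ5.div_const (Real.log b)
    rw [zero_div] at h6
    refine h6.congr fun n => ?_
    field_simp
  · obtain ⟨m, hm⟩ := ((hJ.eventually (gt_mem_nhds (half_pos hκ))).exists)
    refine ⟨m, ?_⟩
    have h6 : Tendsto (fun n : ℕ => Real.log |Df (n + 1) (XX b T ξ ω)| / Real.log b -
        Real.log |Df n (XX b T ξ ω)| / Real.log b) atTop (𝓝 (Real.log β / Real.log b)) := by
      refine (hβ5.div_const (Real.log b)).congr fun n => ?_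
      rw [sub_div]
    have hαE : Real.log β / Real.log b ∉ E m := fun h => hβE (Set.mem_iUnion.2 ⟨m, h⟩)
    filter_upwards [h3 m _ (div_pos hlβ hlb) hαE (fun n : ℕ => Real.log |Df n (XX b T ξ ω)| / Real.log b) h6 (κ / 2)
      (half_pos hκ)] with N hN
    refine hN.trans ?_
    have : JJ μ (qq μ b C T ξ m) (m + 3) + κ / 2 ≤ κ := by linarith
    gcongr

end Pool.Agent.Helper32.HP
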